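import Pool.Agent.Helper27.TRB.Vol
import Pool.Agent.Helper27.TRB.Lim
import Pool.Agent.Helper45.RBC.AsmR

/-! # TRB: the projector (TCOR) -/

open Complex Metric Set Filter Topology MeasureTheory
open scoped ContDiff ComplexConjugate ComplexOrder Manifold Matrix

namespace Pool.Agent.Helper27.TRB

open Pool.Agent.Helper95.Lin Pool.Agent.Helper16.Abund Pool.Agent.Helper92.Orb
  Pool.Agent.Helper10.SP Pool.Agent.Helper95.RK Pool.Agent.Helper57.HS
  Pool.Agent.Helper15.HS Pool.Agent.Helper10.HS Pool.Agent.Helper15.GS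
  Pool.Agent.Helper57.RBC Pool.Agent.Helper45.RBC Pool.Agent.Helper57.HX
open Pool.Agent.Helper45.HS (SmM)
open Pool.Agent.Helper16.HS.AYTP (her_ket)
open Pool.Agent.Helper25.HS (TT)

universe u

/-- `P χ = 0` from `tr (χ h⁻¹ A) = 0`, `A h ≥ c P h`. -/
theorem pchi {n : ℕ} {χ h A P : Matrix (Fin n) (Fin n) ℂ} (hχ : χ.PosSemidef) (hh : h.PosDef)
    (hPP : P * P = P) (hPh : P * h = h * Pᴴ) {c : ℝ} (hc : 0 < c)
    (hA : (A * h - (c : ℂ) • (P * h)).PosSemidef)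
    (h0 : (Matrix.trace (χ * (h⁻¹ * A))).re = 0) : P * χ = 0 := by
  have hu : IsUnit h.det := isUnit_iff_ne_zero.2 hh.det_pos.ne'
  have hinv : (h⁻¹)ᴴ = h⁻¹ := hh.inv.isHermitian.eq
  -- `h⁻¹ A - c h⁻¹ P ≥ 0`
  have h1 : (h⁻¹ * A - (c : ℂ) • (h⁻¹ * P)).PosSemidef := by
    have e1 := hA.mul_mul_conjTranspose_same (h⁻¹)
    have e2 : h⁻¹ * (A * h - (c : ℂ) • (P * h)) * (h⁻¹)ᴴ = h⁻¹ * A - (c : ℂ) • (h⁻¹ * P) := by
      rw [hinv, Matrix.mul_sub, Matrix.sub_mul, Matrix.mul_smul, Matrix.smul_mul]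
      congr 1
      · rw [← Matrix.mul_assoc, Matrix.mul_assoc, Matrix.mul_nonsing_inv _ hu, Matrix.mul_one]
      · rw [← Matrix.mul_assoc (h⁻¹) P, Matrix.mul_assoc, Matrix.mul_nonsing_inv _ hu,
          Matrix.mul_one]
    rwa [e2] at e1
  -- `h⁻¹ P = Pᴴ h⁻¹ P`
  have hPi : h⁻¹ * P = Pᴴ * h⁻¹ := by
    have e2 : h⁻¹ * (P * h) * h⁻¹ = h⁻¹ * (h * Pᴴ) * h⁻¹ :=
      congrArg (fun M => h⁻¹ * M * h⁻¹) hPh
    rw [Matrix.mul_assoc, Matrix.mul_assoc, Matrix.mul_nonsing_inv _ hu, Matrix.mul_one,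
      ← Matrix.mul_assoc (h⁻¹) h, Matrix.nonsing_inv_mul _ hu, Matrix.one_mul] at e2
    exact e2
  have hK : h⁻¹ * P = Pᴴ * h⁻¹ * P := by
    rw [← hPi, Matrix.mul_assoc, hPP]
  obtain ⟨S, hS⟩ : ∃ S : Matrix (Fin n) (Fin n) ℂ, χ = Sᴴ * S := by
    open scoped MatrixOrder in
    exact CStarAlgebra.nonneg_iff_eq_star_mul_self.mp hχ.nonneg
  obtain ⟨U, hU⟩ : ∃ U : Matrix (Fin n) (Fin n) ℂ, h⁻¹ = Uᴴ * U := by
    open scoped MatrixOrder in
    exact CStarAlgebra.nonneg_iff_eq_star_mul_self.mp hh.inv.posSemidef.nonneg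
  have hUu : IsUnit U.det := by
    have h2 : IsUnit (h⁻¹).det := isUnit_iff_ne_zero.2 hh.inv.det_pos.ne'
    rw [hU, Matrix.det_mul] at h2
    exact isUnit_of_mul_isUnit_right h2
  have h2 : (Matrix.trace (χ * (h⁻¹ * P))).re ≤ 0 := by
    have h3 := tr_mul_nonneg hχ h1
    rw [Matrix.mul_sub, Matrix.trace_sub, Matrix.mul_smul, Matrix.trace_smul, smul_eq_mul,
      Complex.sub_re, Complex.re_ofReal_mul, h0] at h3
    nlinarith
  have e3 : Matrix.trace (χ * (h⁻¹ * P)) =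
      Matrix.trace ((U * P * Sᴴ)ᴴ * (U * P * Sᴴ)) := by
    rw [hK, hU, hS, Matrix.conjTranspose_mul, Matrix.conjTranspose_mul,
      Matrix.conjTranspose_conjTranspose]
    have e4 : Sᴴ * S * (Pᴴ * (Uᴴ * U) * P) = Sᴴ * (S * (Pᴴ * Uᴴ) * (U * P)) := by
      simp only [Matrix.mul_assoc]
    rw [e4, Matrix.trace_mul_comm]
    simp only [Matrix.mul_assoc]
  have h4 : (0 : ℂ) ≤ Matrix.trace ((U * P * Sᴴ)ᴴ * (U * P * Sᴴ)) :=
    (Matrix.posSemidef_conjTranspose_mul_self _).trace_nonneg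
  have h5 : Matrix.trace ((U * P * Sᴴ)ᴴ * (U * P * Sᴴ)) = 0 := by
    rw [Complex.nonneg_iff] at h4
    refine Complex.ext ?_ h4.2.symm
    rw [e3] at h2
    exact le_antisymm h2 h4.1
  have h6 : U * P * Sᴴ = 0 := Matrix.trace_conjTranspose_mul_self_eq_zero_iff.1 h5
  have h7 : P * Sᴴ = 0 := by
    have h8 := congrArg (fun M => U⁻¹ * M) h6
    simp only [Matrix.mul_zero] at h8
    rw [Matrix.mul_assoc, ← Matrix.mul_assoc, Matrix.nonsing_inv_mul _ hUu, Matrix.one_mul] at h8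
    exact h8
  rw [hS, ← Matrix.mul_assoc, h7, Matrix.zero_mul]

/-- The curvature on the vectors of the image of `P`. -/
theorem hrank {n : ℕ} {T : Set (Cn n)} {h χ P : Cn n → Matrix (Fin n) (Fin n) ℂ}
    (htrb : TRBC h χ T) (hχ : ∀ x ∈ T, (χ x).PosSemidef) (hPχ : ∀ x ∈ T, P x * χ x = 0) :
    ∀ x ∈ T, ∀ w : Fin n → ℂ, w ᵥ* P x = w → (TT (crv h x) w w w w).re ≤ 0 := by
  intro x hx w hw
  have e1 := htrb x hx _ (Matrix.posSemidef_vecMulVec_star_self w)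
  have e0 : χ x * Matrix.vecMulVec (star w) w = 0 := by
    have e2 : χ x * (P x)ᴴ = 0 := by
      have e3 := congrArg Matrix.conjTranspose (hPχ x hx)
      rwa [Matrix.conjTranspose_mul, (hχ x hx).isHermitian.eq, Matrix.conjTranspose_zero] at e3
    have e4 : star w = (P x)ᴴ *ᵥ star w := by
      conv_lhs => rw [← hw]
      rw [Matrix.star_vecMul]
    rw [Matrix.mul_vecMulVec, e4, Matrix.mulVec_mulVec, e2, Matrix.zero_mulVec]
    ext i j
    simp [Matrix.vecMulVec_apply]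
  rw [e0, Matrix.zero_mul, Matrix.zero_mul, Matrix.trace_zero, Complex.zero_re] at e1
  refine le_trans (le_of_eq ?_) e1
  congr 1
  unfold TT crvP
  refine Finset.sum_congr rfl fun i _ => Finset.sum_congr rfl fun j _ =>
    Finset.sum_congr rfl fun k _ => Finset.sum_congr rfl fun l _ => ?_
  simp only [Matrix.vecMulVec_apply, Pi.star_apply, Complex.star_def]
  ring

/-- Existence of the untwisted metrics `rho Q = Q - ε H`. -/
theorem ex0 (hAYG : S_AYG.{u}) (hWIRT : S_WIRT) (hRHOI : S_RHOI.{u}) {n : ℕ} {T : Set (Cn n)}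
    {G : Type u} [Group G] {R : G → Cn n → Cn n → Prop}
    {H h χ : Cn n → Matrix (Fin n) (Fin n) ℂ} {μ : ℝ} {ψ : Cn n → ℝ}
    (D : TDat T R H h χ μ ψ) : ∀ ε : ℝ, 0 < ε → ∃ Q, TKE T R H ε Q := by
  intro ε hε
  have hT := D.ket.et.isOpen
  have hμ := D.mu
  have hX : KEt T R fun x => (ε : ℂ) • H x + ((μ⁻¹ : ℝ) : ℂ) • χ x := by
    refine Pool.Agent.Helper61.GS.ket_add (ket_smul D.ket hε)
      (Pool.Agent.Helper97.HS.chf_sm hT (chi_chf hRHOI D) μ⁻¹)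
      (Pool.Agent.Helper97.HS.invH_sm (chi_inv hRHOI D) ((μ⁻¹ : ℝ) : ℂ)) fun x hx => ?_
    exact (D.psd x hx).smul (Complex.zero_le_real.2 (by positivity))
  have hf : InvF T R (fun x => μ⁻¹ * ψ x) := by
    refine ⟨contDiffOn_const.mul D.psi.1, fun γ x y hR => ?_⟩
    have h1 := D.psi.2 γ x y hR
    simp only
    rw [h1]
  obtain ⟨Q, hQ, hQe⟩ := of_pot hAYG hWIRT hRHOI (B := H)
    (X₀ := fun x => (ε : ℂ) • H x) D.ket hX hf (fun x hx => by
      have e1 : (fun y => μ⁻¹ * ψ y) = fun y => μ⁻¹ * ψ y + 0 * ψ y := by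
        funext y; ring
      rw [e1, Pool.Agent.Helper94.HS.LM_lin hWIRT hT D.psi.1 D.psi.1 μ⁻¹ 0 hx]
      have h1 : ((μ⁻¹ : ℝ) : ℂ) • χ x = rho H x + ((μ⁻¹ : ℝ) : ℂ) • LM ψ x := by
        rw [D.chi x hx, smul_add, smul_smul, ← Complex.ofReal_mul, inv_mul_cancel₀ hμ.ne',
          Complex.ofReal_one, one_smul]
      rw [h1]
      push_cast
      module)
  exact ⟨Q, hQ, hQe⟩

/-- TCOR. -/
theorem tcor (hAYG : S_AYG.{u}) (hWIRT : S_WIRT) (hPUE : S_PUE.{u}) (hVOLP : S_VOLP.{u})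
    (hTFAM : S_TFAM.{u}) (hTLC : S_TLC.{u}) (hTLP : S_TLP.{u}) (hCHP : S_CHP.{u})
    (hTNUL : S_TNUL) (hTCLO : S_TCLO.{u}) (hTNK : S_TNK.{u}) (hTVOL : S_TVOL.{u})
    (hKAPI : S_KAPI.{u}) (hRHOI : S_RHOI.{u}) : S_TCOR.{u} := by
  intro n hn T G _ R H h χ μ ψ D
  have hK := D.ket
  have hh := D.her
  have hTo : IsOpen T := hK.et.isOpen
  obtain ⟨κ, hκ⟩ := hPUE T R hK.et
  obtain ⟨s, S, N, φ, H', ε, Q, A, hLC⟩ := hTLC hn T R H h χ μ ψ D κ hκ
  have hL := hTLP T R H h χ μ ψ D κ hκ A s S N φ H' ε Q hLC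
  obtain ⟨r, P, hr, p1, p2, p3, p4, p5, p6, p7, ⟨c, hc, p8⟩, -⟩ :=
    hCHP T R hK.et h A hh hL.holo hL.psd hL.inv
  obtain ⟨α, hα, p7⟩ := p7
  -- the torsion vanishes in the direction of `P`
  have htor : ∀ x ∈ T, ∀ m i p, ∑ k, P x m k * (Gam h k x i p - Gam h i x k p) = 0 := by
    intro x hx m i p
    set Z : Matrix (Fin n) (Fin n) ℂ := A x + (1 - P x) with hZ
    have hdet : IsUnit Z.det := by
      rw [isUnit_iff_ne_zero]
      intro h0
      have := p7 x hx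
      rw [← hZ, h0] at this
      simp at this
      linarith
    have hZP : Z * P x = A x := by
      rw [hZ, Matrix.add_mul, Matrix.sub_mul, Matrix.one_mul, p2 x hx, sub_self, add_zero]
      exact (p6 x hx).2
    have hP : P x = Z⁻¹ * A x := by
      rw [← hZP, ← Matrix.mul_assoc, Matrix.nonsing_inv_mul _ hdet, Matrix.one_mul]
    rw [hP]
    simp only [Matrix.mul_apply, Finset.sum_mul]
    rw [Finset.sum_comm]
    refine Finset.sum_eq_zero fun q _ => ?_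
    have h1 := hL.tor x hx q i p
    calc ∑ k, Z⁻¹ m q * A x q k * (Gam h k x i p - Gam h i x k p)
        = Z⁻¹ m q * ∑ k, A x q k * (Gam h k x i p - Gam h i x k p) := by
          rw [Finset.mul_sum]
          exact Finset.sum_congr rfl fun k _ => by ring
      _ = 0 := by rw [h1, mul_zero]
  have hPχ : ∀ x ∈ T, P x * χ x = 0 := fun x hx =>
    pchi (D.psd x hx) (hh.posDef x hx) (p2 x hx) (p3 x hx) hc (p8 x hx) (hL.chi x hx)
  have hnul := hTNUL T hTo h P A hh.posDef hh.smooth (hrank D.trb D.psd hPχ) p1 p2 p3 htor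
    (fun x hx => (p6 x hx).2) hL.herm (fun x hx => ⟨c, hc, p8 x hx⟩) hL.crv
  have hchf : CHF (fun x => P x * h x) T :=
    hTCLO T R H h hK hh P p1 p2 p3 p5 fun x hx => (hnul x hx).1
  -- the limit data
  have hepsnn : ∀ j, 0 ≤ ε j := fun j => (hL.seq.eps j).le
  have hone : Tendsto (fun j : ℕ => 1 / ((j : ℝ) + 1)) atTop (𝓝 0) :=
    tendsto_one_div_add_atTop_nhds_zero_nat
  have hLA : LimAT r T R κ H h μ P A ε (fun j => N j + (ε j)⁻¹ * μ)
      (fun j x => φ j x + (ε j)⁻¹ * ψ x) (fun j => tw χ (ε j) (H' j)) Q := by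
    refine ⟨hK, hh, D.mu.le, p2, p3, p4, fun i j => (p1 i j).continuousOn,
      fun i j => (hL.holo i j).continuousOn, p6, hL.psd, ⟨α, hα, p7⟩,
      ⟨s, fun x hx => ?_⟩, hL.seq.eps, ?_, ?_,
      fun j => hTFAM T R H h χ μ ψ D (N j) (φ j) (H' j) (hL.seq.fam j) (ε j) (hL.seq.eps j),
      hL.seq.tke, hL.bB, hL.conv⟩
    · rw [hL.tr x hx]; simp
    · exact squeeze_zero hepsnn hL.seq.eps_le hone
    · have h1 : Tendsto (fun j => ε j * N j) atTop (𝓝 0) :=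
        squeeze_zero (fun j => mul_nonneg (hepsnn j) (hL.seq.fam j).nn) hL.seq.epsN hone
      have h2 := h1.add_const μ
      rw [zero_add] at h2
      refine h2.congr fun j => ?_
      have h3 := (hL.seq.eps j).ne'
      field_simp
  obtain ⟨-, k, p, hk, hp, hV⟩ := hVOLP T R H hK κ hκ (ex0 hAYG hWIRT hRHOI D)
  have hkr : k ≤ r := hTNK T R H h κ hκ k p hp hV r μ P A ε _ _ _ Q hLA
  have hvol : 0 < ∫ x in T, κ x * (rho H x + (P x * h x + χ x)).det.re :=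
    hTVOL T R H h χ μ ψ D κ hκ k p hp hV r P p2 p3 p4 hchf p5 hPχ hkr
  refine ⟨r, P, p1, p2, p4, p3, p5, hchf, fun x hx => (hnul x hx).1, hPχ,
    fun κ' hκ' => ?_⟩
  obtain ⟨h1, h2, -⟩ := hRHOI T R H hK.et (her_ket hK)
  have hχ := chi_chf hRHOI D
  rw [hKAPI T R hK.et κ' κ hκ' hκ (fun x => (rho H x + (P x * h x + χ x)).det.re) ?_ ?_]
  · exact hvol
  · have h3 : SmM (fun x => rho H x + (P x * h x + χ x)) T :=
      SmM.add (X := rho H) h1.smooth (SmM.add (X := fun x => P x * h x) hchf.smooth hχ.smooth)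
    exact Complex.continuous_re.comp_continuousOn h3.det.continuousOn
  · exact fun U τ hA x hx => det_density (invH_add h2 (Pool.Agent.Helper97.HS.invH_ad p5
      (chi_inv hRHOI D))) U τ hA x hx

end Pool.Agent.Helper27.TRB
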