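import Pool.Agent.Helper27.TRB.Seq
import Pool.Agent.Helper57.RBC.Conc

/-!
# TRB: the functions `v_j` (TVD), the averages of `v_j` tend to zero (TVC), the average of `tr (χ Q⁻¹)` (TCH)
-/

open Complex Metric Set Filter Topology MeasureTheory
open scoped ContDiff ComplexConjugate ComplexOrder Manifold Matrix

namespace Pool.Agent.Helper27.TRB

open Pool.Agent.Helper95.Lin Pool.Agent.Helper16.Abund Pool.Agent.Helper92.Orb
  Pool.Agent.Helper10.SP Pool.Agent.Helper95.RK Pool.Agent.Helper57.HS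
  Pool.Agent.Helper15.HS Pool.Agent.Helper15.GS Pool.Agent.Helper57.RBC
  Pool.Agent.Helper57.HX Pool.Agent.Helper16.HS.AYTP
open Pool.Agent.Helper10.RBC (dn S_RVZ)
open Pool.Agent.Helper95.HS (vol DensLe)
open Pool.Agent.Helper38.HS.QPD (kint LM_congr LM_sub_const cont_trace_mul trace_mul_nonneg')
open Pool.Agent.Helper56.HS.DBZ (contM cont_det cont_inv cont_trace trace_nonneg)

universe u

/-- `tr (χ Q⁻¹ h Q⁻¹) ≥ 0`. -/
theorem trq_nonneg {n : ℕ} {χ h Q : Matrix (Fin n) (Fin n) ℂ} (hχ : χ.PosSemidef)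
    (hh : h.PosSemidef) (hQ : Q.PosDef) : 0 ≤ (Matrix.trace (χ * Q⁻¹ * h * Q⁻¹)).re := by
  have h1 : χ * Q⁻¹ * h * Q⁻¹ = χ * (Q⁻¹ * h * (Q⁻¹)ᴴ) := by
    rw [hQ.inv.isHermitian.eq]
    simp only [Matrix.mul_assoc]
  rw [h1]
  exact tr_mul_nonneg hχ (hh.mul_mul_conjTranspose_same _)

/-- Continuity of `tr (χ Q⁻¹ h Q⁻¹)`. -/
theorem trq_cont {n : ℕ} {T : Set (Cn n)} {χ h Q : Cn n → Matrix (Fin n) (Fin n) ℂ}
    (hχ : ContinuousOn χ T) (hh : ContinuousOn h T) (hQ : ContinuousOn Q T)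
    (hQd : ∀ x ∈ T, (Q x).det ≠ 0) :
    ContinuousOn (fun x => (Matrix.trace (χ x * (Q x)⁻¹ * h x * (Q x)⁻¹)).re) T := by
  have hi : ContinuousOn (fun x => (Q x)⁻¹) T := cont_inv hQ hQd
  have h1 : ContinuousOn (fun x => χ x * (Q x)⁻¹ * h x * (Q x)⁻¹) T :=
    ((hχ.mul hi).mul hh).mul hi
  have h2 : Continuous fun X : Matrix (Fin n) (Fin n) ℂ => (Matrix.trace X).re := by fun_prop
  exact h2.comp_continuousOn h1

/-- TVD. -/
theorem tvd (hWIRT : S_WIRT) (hDETI : S_DETI.{u}) (hINVK : S_INVK.{u})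
    (hTRI : Pool.Agent.Helper95.HS.S_TRI.{u}) (hKETP : Pool.Agent.Helper95.HS.S_KETP.{u})
    (hCL : S_CL) (hTMON : S_TMON.{u}) : S_TVD.{u} := by
  intro n T G _ R H' h χ hket hher hχ hχc htrb κ hκ S ε Q hε hS hQ
  have hT := hket.et.isOpen
  have hQk := hQ.ket
  have hD := hDETI T R Q hQk
  have hdc : ContinuousOn (fun x => (Q x).det.re) T := hD.2.1.continuousOn
  have hd0 : ∀ x ∈ T, 0 ≤ (Q x).det.re := fun x hx => (hD.1 x hx).2.1.le
  have htI : InvF T R (fun x => (Matrix.trace (h x * (Q x)⁻¹)).re) :=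
    (hTRI T R Q hQk).1 h hher.smooth hher.inv
  have hvI : InvF T R (fun x => S - ε * (Matrix.trace (h x * (Q x)⁻¹)).re) := by
    refine ⟨contDiffOn_const.sub (contDiffOn_const.mul htI.1), fun γ x y hxy => ?_⟩
    have := htI.2 γ x y hxy
    simp only at this ⊢
    rw [this]
  have hv0 : ∀ x ∈ T, 0 ≤ S - ε * (Matrix.trace (h x * (Q x)⁻¹)).re := fun x hx =>
    sub_nonneg.2 (hTMON T R H' h χ hket hher htrb S hS ε Q hε hQ x hx)
  obtain ⟨hKc, hAc, -, -⟩ := hINVK T R hket.et h Q hher (her_ket hQk)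
  have hbc : ContinuousOn (fun x => (Matrix.trace (χ x * (Q x)⁻¹ * h x * (Q x)⁻¹)).re -
      KKt h Q x) T := by
    refine ContinuousOn.sub ?_ hKc
    exact trq_cont (continuousOn_pi.2 fun i => continuousOn_pi.2 fun j => hχc i j)
      (contM hher.smooth) (contM hQk.smooth) fun x hx => (hQk.posDef x hx).det_pos.ne'
  have hKK : ∀ x ∈ T, 0 ≤ (Matrix.trace (χ x * (Q x)⁻¹ * h x * (Q x)⁻¹)).re - KKt h Q x :=
    fun x hx => sub_nonneg.2 (htrb x hx _ (hQk.posDef x hx).posSemidef.inv)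
  have hcl := fun x (hx : x ∈ T) => tw_cl hCL hher hε hQ hx
  -- the arithmetic-geometric inequality
  have hag : ∀ x ∈ T, 2 * (ε * (Matrix.trace (h x * (Q x)⁻¹)).re) ≤
      S + ε * (ε * (Matrix.trace (H' x * (Q x)⁻¹ * h x * (Q x)⁻¹)).re) := by
    intro x hx
    obtain ⟨ht0, hb0, ha0, hcs⟩ := cs_tr (hket.posDef x hx) (hher.posDef x hx).posSemidef
      (hQk.posDef x hx)
    have hsb := hS x hx
    set t := (Matrix.trace (h x * (Q x)⁻¹)).re
    set a := (Matrix.trace (H' x * (Q x)⁻¹ * h x * (Q x)⁻¹)).re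
    set b := (Matrix.trace (h x * (H' x)⁻¹)).re
    have hS0 : 0 ≤ S := hb0.trans hsb
    have hα : 0 ≤ ε * (ε * a) := by positivity
    have h1 : (ε * t) ^ 2 ≤ (ε * (ε * a)) * S := by
      calc (ε * t) ^ 2 = ε * ε * t ^ 2 := by ring
        _ ≤ ε * ε * (a * b) := mul_le_mul_of_nonneg_left hcs (by positivity)
        _ ≤ ε * ε * (a * S) := mul_le_mul_of_nonneg_left
            (mul_le_mul_of_nonneg_left hsb ha0) (by positivity)
        _ = (ε * (ε * a)) * S := by ring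
    have h2 : (2 * (ε * t)) ^ 2 ≤ (S + ε * (ε * a)) ^ 2 := by
      nlinarith [sq_nonneg (S - ε * (ε * a))]
    exact (pow_le_pow_iff_left₀ (by positivity) (by positivity) (by norm_num)).1 h2
  have htrc : ContinuousOn (fun x => (trL Q (fun y => (Matrix.trace (h y * (Q y)⁻¹)).re) x).re)
      T := ((hKETP T R hket.et).2.2 Q _ hQk htI).1.1.continuousOn
  have htr0 := (hTRI T R Q hQk).2 κ hκ _ htI
  refine ⟨hvI, hv0, ?_, ?_, ?_, ?_⟩
  · intro x hx
    rw [trL_sub_mul hWIRT hT htI.1 S ε Q hx, (hcl x hx).2]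
    have h1 := (hcl x hx).1
    have h2 := hKK x hx
    have h3 := hag x hx
    nlinarith [mul_nonneg hε.le h1, mul_nonneg hε.le h2]
  · intro x hx
    exact ⟨mul_nonneg hε.le (hcl x hx).1, mul_nonneg hε.le (hKK x hx)⟩
  · refine avE_le hT hκ.test hκ.nonneg hdc hd0 (continuousOn_const.mul hAc)
      hvI.1.continuousOn htrc htr0 (c := ε) fun x hx => ?_
    have h0 := (hcl x hx).2
    have h1 := (hcl x hx).1
    have h2 := hKK x hx
    have h3 := hag x hx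
    rw [h0]
    nlinarith [mul_nonneg hε.le h1, mul_nonneg hε.le h2]
  · refine avE_le hT hκ.test hκ.nonneg hdc hd0 (continuousOn_const.mul hbc)
      hvI.1.continuousOn htrc htr0 (c := ε) fun x hx => ?_
    have h0 := (hcl x hx).2
    have h1 := (hcl x hx).1
    have h2 := hKK x hx
    have h3 := hag x hx
    rw [h0]
    nlinarith [mul_nonneg hε.le h1, mul_nonneg hε.le h2]

theorem seqT_tkes (hRHOI : S_RHOI.{u}) {n : ℕ} {T : Set (Cn n)} {G : Type u} [Group G]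
    {R : G → Cn n → Cn n → Prop} {H h χ : Cn n → Matrix (Fin n) (Fin n) ℂ} {μ : ℝ}
    {ψ : Cn n → ℝ} (D : TDat T R H h χ μ ψ) {s : ℝ}
    {S N : ℕ → ℝ} {φ : ℕ → Cn n → ℝ} {H' : ℕ → Cn n → Matrix (Fin n) (Fin n) ℂ} {ε : ℕ → ℝ}
    {Q : ℕ → Cn n → Matrix (Fin n) (Fin n) ℂ} (hS : SeqT T R H h χ s S N φ H' ε Q) (j : ℕ) :
    TkeS T R H (ε j) (tw χ (ε j) (H' j)) (Q j) := by
  refine ⟨ket_tw hRHOI D (hS.fam j).ket (hS.eps j), hS.eps j, hS.tke j, fun x hx => ?_⟩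
  rw [smul_tw χ (H' j) (hS.eps j), ← sub_sub]
  exact hS.epsH j x hx

/-- TVC. -/
theorem tvc (hRHOI : S_RHOI.{u}) (hMAXF : Pool.Agent.Helper95.HS.S_MAXF.{u})
    (hRWT : S_RWT.{u}) (hTVD : S_TVD.{u}) (hRLG : S_RLG.{u}) (hRVZ : S_RVZ.{u}) : S_TVC.{u} := by
  intro n hn T G _ R H h χ μ ψ D κ hκ s S N φ H' ε Q hS
  have hT := D.ket.et.isOpen
  obtain ⟨K, hK, hW1, hW2⟩ := hRWT hn T R H D.ket κ hκ
  have hW := fun j => hW1 (ε j) _ (Q j) (seqT_tkes hRHOI D hS j)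
  have hχc : ∀ i j, ContinuousOn (fun x => χ x i j) T := fun i j =>
    ((chi_chf hRHOI D).smooth i j).continuousOn
  have hV := fun j => hTVD T R (H' j) h χ (hS.fam j).ket D.her D.psd hχc D.trb κ hκ (S j) (ε j)
    (Q j) (hS.eps j) (hS.sup j) (hS.tke j)
  set v : ℕ → Cn n → ℝ := fun j x => S j - ε j * (Matrix.trace (h x * (Q j x)⁻¹)).re with hv
  have hvI : ∀ j, InvF T R (v j) := fun j => (hV j).1
  have hv0 : ∀ j, ∀ x ∈ T, 0 ≤ v j x := fun j => (hV j).2.1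
  have hvl : ∀ j, ∀ x ∈ T, (trL (Q j) (v j) x).re ≤ v j x := fun j => (hV j).2.2.1
  have hvM : ∀ j, ∀ x ∈ T, v j x ≤ s + 1 := by
    intro j x hx
    have h1 : 0 ≤ (Matrix.trace (h x * (Q j x)⁻¹)).re :=
      tr_mul_nonneg (D.her.posDef x hx).posSemidef ((hS.tke j).ket.posDef x hx).posSemidef.inv
    have h2 := mul_nonneg (hS.eps j).le h1
    have h3 := hS.S_le j
    have h4 : 1 / ((j : ℝ) + 1) ≤ 1 := by
      rw [div_le_one (by positivity)]
      have : (0 : ℝ) ≤ j := Nat.cast_nonneg j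
      linarith
    show S j - ε j * (Matrix.trace (h x * (Q j x)⁻¹)).re ≤ s + 1
    linarith
  -- minimum points
  have hmin : ∀ j, ∃ x ∈ T, ∀ y ∈ T, v j x ≤ v j y := by
    intro j
    obtain ⟨x, hx, hm, -⟩ := hMAXF T R D.ket.et (fun x => - v j x) ⟨(hvI j).1.neg,
      fun γ x y hxy => by
        have := (hvI j).2 γ x y hxy
        simp only
        rw [this]⟩
    exact ⟨x, hx, fun y hy => by
      have := hm y hy
      linarith⟩
  choose z hz hzm using hmin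
  set δ : ℕ → ℝ := fun j => 1 / ((j : ℝ) + 1) with hδ
  have hδ0 : ∀ j, 0 < δ j := fun j => by
    simp only [hδ]
    positivity
  have hδ1 : ∀ j, δ j ≤ 1 := fun j => by
    simp only [hδ]
    rw [div_le_one (by positivity)]
    have : (0 : ℝ) ≤ j := Nat.cast_nonneg j
    linarith
  set η : ℕ → ℝ := fun j => v j (z j) + δ j with hη
  have hη0 : ∀ j, 0 < η j := fun j => add_pos_of_nonneg_of_pos (hv0 j _ (hz j)) (hδ0 j)
  have hη1 : ∀ j, η j ≤ 2 * δ j := by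
    intro j
    obtain ⟨x, hx, hxs⟩ := hS.m_ge j
    have h1 := hzm j x hx
    have h2 : v j x ≤ δ j := by
      have h3 := hS.S_le j
      show S j - ε j * (Matrix.trace (h x * (Q j x)⁻¹)).re ≤ 1 / ((j : ℝ) + 1)
      linarith
    show v j (z j) + δ j ≤ 2 * δ j
    linarith
  have hδlim : Tendsto δ atTop (𝓝 0) := tendsto_one_div_add_atTop_nhds_zero_nat
  have hηlim : Tendsto η atTop (𝓝 0) := by
    have h1 : Tendsto (fun j => 2 * δ j) atTop (𝓝 0) := by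
      have := hδlim.const_mul 2
      rwa [mul_zero] at this
    exact squeeze_zero (fun j => (hη0 j).le) hη1 h1
  refine hRVZ T R H D.ket κ hκ K (s + 1) K⁻¹ (inv_pos.2 hK) δ η v Q
    (fun j => (hS.tke j).ket) (fun j => (hW j).1) ?_ hvI (fun j x hx => ⟨hv0 j x hx, hvM j x hx⟩)
    (fun j => ⟨hδ0 j, hδ1 j, hη0 j⟩) hηlim ?_ ?_ ?_
  · intro C hC hCc
    obtain ⟨B, hB⟩ := hW2 C hC hCc
    exact ⟨B, fun j => hB (ε j) _ (Q j) (seqT_tkes hRHOI D hS j)⟩
  · intro j x hx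
    have := hzm j x hx
    show v j (z j) + δ j ≤ v j x + δ j
    linarith
  · intro j
    have hpos : ∀ x ∈ T, 0 < v j x + δ j := fun x hx =>
      add_pos_of_nonneg_of_pos (hv0 j x hx) (hδ0 j)
    have hI : InvF T R (fun x => (v j x + δ j)⁻¹) := by
      refine ⟨((hvI j).1.add contDiffOn_const).inv fun x hx => (hpos x hx).ne', fun γ x y hxy => ?_⟩
      have := (hvI j).2 γ x y hxy
      simp only
      rw [this]
    have hlg := hRLG T R (Q j) (hS.tke j).ket κ hκ (v j) (hvI j) (hv0 j) (hvl j) (δ j) (hδ0 j)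
    have h1 := (hW j).2.2.2 (fun x => (v j x + δ j)⁻¹) hI (fun x hx => inv_pos.2 (hpos x hx))
      hlg.1 (z j) (hz j)
    have h2 : avE T κ (Q j) (fun x => η j / (v j x + δ j)) =
        η j * avE T κ (Q j) (fun x => (v j x + δ j)⁻¹) := by
      rw [← avE_const_mul]
      congr 1
    rw [h2]
    have h3 : (η j)⁻¹ ≤ K * avE T κ (Q j) (fun x => (v j x + δ j)⁻¹) := h1
    have h4 := mul_le_mul_of_nonneg_left h3 (hη0 j).le
    rw [mul_inv_cancel₀ (hη0 j).ne'] at h4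
    rw [inv_le_iff_one_le_mul₀ hK]
    linarith
  · intro j
    exact (hRLG T R (Q j) (hS.tke j).ket κ hκ (v j) (hvI j) (hv0 j) (hvl j) (δ j) (hδ0 j)).2

/-- TCH. -/
theorem tch (hWIRT : S_WIRT) (hRHOI : S_RHOI.{u}) (hDETI : S_DETI.{u})
    (hTRI : Pool.Agent.Helper95.HS.S_TRI.{u}) (hKETP : Pool.Agent.Helper95.HS.S_KETP.{u})
    (hNULL0 : Pool.Agent.Helper95.HS.S_NULL0.{u}) : S_TCH.{u} := by
  intro n T G _ R H h χ μ ψ D κ hκ ε H' Q hε hH' hQ
  have hT := D.ket.et.isOpen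
  have hQk := hQ.ket
  have hμ := D.mu
  have hχ := chi_chf hRHOI D
  have hI : InvF T R (fun x => (Matrix.trace (χ x * (Q x)⁻¹)).re) :=
    (hTRI T R Q hQk).1 χ hχ.smooth (chi_inv hRHOI D)
  have h0 : ∀ x ∈ T, 0 ≤ (Matrix.trace (χ x * (Q x)⁻¹)).re := fun x hx =>
    tr_mul_nonneg (D.psd x hx) (hQk.posDef x hx).posSemidef.inv
  refine ⟨hI, h0, ?_⟩
  have hD := hDETI T R Q hQk
  have hdc : ContinuousOn (fun x => (Q x).det.re) T := hD.2.1.continuousOn
  have hd0 : ∀ x ∈ T, 0 ≤ (Q x).det.re := fun x hx => (hD.1 x hx).2.1.le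
  obtain ⟨hwi, hwr⟩ := (hRHOI T R H D.ket.et (her_ket D.ket)).2.2.2.2 Q (her_ket hQk)
  set w : Cn n → ℝ := fun x => ld Q x - ld H x with hw
  set f : Cn n → ℝ := fun x => μ * w x + (-1) * ψ x with hf
  have hfi : InvF T R f := invF_lin hwi D.psi μ (-1)
  have htrc : ContinuousOn (fun x => (trL Q f x).re) T :=
    ((hKETP T R D.ket.et).2.2 Q _ hQk hfi).1.1.continuousOn
  have htr0 := (hTRI T R Q hQk).2 κ hκ _ hfi
  have hV : 0 < vol T κ Q := (hNULL0 T R Q hQk κ hκ).1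
  have key : avE T κ Q (fun x => (Matrix.trace (χ x * (Q x)⁻¹)).re) ≤
      avE T κ Q (fun _ => (n : ℝ)) := by
    refine avE_le hT hκ.test hκ.nonneg hdc hd0 hI.1.continuousOn continuousOn_const htrc htr0
      (c := - (1 + μ)⁻¹) fun x hx => ?_
    have hQp := hQk.posDef x hx
    have hu : IsUnit (Q x).det := (Matrix.isUnit_iff_isUnit_det _).1 hQp.isUnit
    -- `LM f = μ (rho Q - rho H) - LM ψ = μ rho Q - χ`, `rho Q = Q - ε H' - χ`
    have e1 : LM f x = (μ : ℂ) • (Q x - (ε : ℂ) • H' x) - ((1 + μ : ℝ) : ℂ) • χ x := by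
      rw [hf, Pool.Agent.Helper94.HS.LM_lin hWIRT hT hwi.1 D.psi.1 μ (-1) hx]
      have h1 := hQ.eq x hx
      rw [hwr x hx, smul_tw χ H' hε] at h1
      have h2 : LM w x = Q x - ((ε : ℂ) • H' x + χ x) - rho H x := by
        rw [← h1]; abel
      have h3 : LM ψ x = χ x - (μ : ℂ) • rho H x := by
        rw [D.chi x hx]; abel
      rw [h2, h3]
      push_cast
      module
    have e2 : (trL Q f x).re = μ * (n - ε * (Matrix.trace (H' x * (Q x)⁻¹)).re) -
        (1 + μ) * (Matrix.trace (χ x * (Q x)⁻¹)).re := by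
      unfold trL
      rw [e1, Matrix.trace_mul_comm, Matrix.sub_mul, Matrix.smul_mul, Matrix.sub_mul,
        Matrix.smul_mul, Matrix.smul_mul, Matrix.mul_nonsing_inv _ hu, Matrix.trace_sub,
        Matrix.trace_smul, Matrix.trace_smul, Matrix.trace_sub, Matrix.trace_smul,
        Matrix.trace_one, Fintype.card_fin]
      simp only [Complex.sub_re, smul_eq_mul, Complex.re_ofReal_mul, Complex.natCast_re]
    have h3 : 0 ≤ (Matrix.trace (H' x * (Q x)⁻¹)).re :=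
      tr_mul_nonneg (hH'.posDef x hx).posSemidef hQp.posSemidef.inv
    rw [e2]
    have h4 : 0 < 1 + μ := by linarith
    have h5 : (1 + μ)⁻¹ * (1 + μ) = 1 := inv_mul_cancel₀ h4.ne'
    have h6 : (n : ℝ) + - (1 + μ)⁻¹ * (μ * (n - ε * (Matrix.trace (H' x * (Q x)⁻¹)).re) -
        (1 + μ) * (Matrix.trace (χ x * (Q x)⁻¹)).re) = (Matrix.trace (χ x * (Q x)⁻¹)).re +
        (1 + μ)⁻¹ * (n + μ * (ε * (Matrix.trace (H' x * (Q x)⁻¹)).re)) := by
      field_simp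
      ring
    rw [h6]
    have h7 : 0 ≤ (1 + μ)⁻¹ * (n + μ * (ε * (Matrix.trace (H' x * (Q x)⁻¹)).re)) := by
      positivity
    linarith
  refine key.trans (le_of_eq ?_)
  have h1 : avE T κ Q (fun _ => (n : ℝ)) = n * avE T κ Q (fun _ => 1) := by
    rw [← avE_const_mul]
    simp
  have h2 : avE T κ Q (fun _ => 1) = 1 := by
    unfold avE
    rw [itg_one]
    exact div_self hV.ne'
  rw [h1, h2, mul_one]

end Pool.Agent.Helper27.TRB
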