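import Pool.Agent.Helper27.TRB.Goals
import Pool.Agent.Helper57.HX.Ex
import Pool.Agent.Helper61.GS.GB1
import Pool.Agent.Helper93.SP.HODG

/-!
# TRB: the twisted background, existence, the sharp bound and the minimising sequences
-/

open Complex Metric Set Filter Topology MeasureTheory
open scoped ContDiff ComplexConjugate ComplexOrder Manifold Matrix

namespace Pool.Agent.Helper27.TRB

open Pool.Agent.Helper95.Lin Pool.Agent.Helper16.Abund Pool.Agent.Helper92.Orb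
  Pool.Agent.Helper10.SP Pool.Agent.Helper95.RK Pool.Agent.Helper57.HS
  Pool.Agent.Helper15.HS Pool.Agent.Helper15.GS Pool.Agent.Helper57.RBC
  Pool.Agent.Helper57.HX Pool.Agent.Helper16.HS.AYTP

universe u

section

variable {n : ℕ} {T : Set (Cn n)} {G : Type u} [Group G] {R : G → Cn n → Cn n → Prop}
  {H h χ : Cn n → Matrix (Fin n) (Fin n) ℂ} {μ : ℝ} {ψ : Cn n → ℝ}

/-- The form `χ' = μ rho H + LM ψ` is closed and invariant. -/
theorem chi_forms (hRHOI : S_RHOI.{u}) (D : TDat T R H h χ μ ψ) :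
    CHF (fun x => (μ : ℂ) • rho H x + LM ψ x) T ∧
      InvH R (fun x => (μ : ℂ) • rho H x + LM ψ x) := by
  have hT := D.ket.et.isOpen
  obtain ⟨hr1, hr2, -, hr4, -⟩ := hRHOI T R H D.ket.et (her_ket D.ket)
  obtain ⟨hp1, hp2⟩ := hr4 ψ D.psi
  exact ⟨Pool.Agent.Helper97.HS.chf_ad hT (Pool.Agent.Helper97.HS.chf_sm hT hr1 μ) hp1,
    Pool.Agent.Helper97.HS.invH_ad (Pool.Agent.Helper97.HS.invH_sm hr2 (μ : ℂ)) hp2⟩

theorem cd_congr_on (hT : IsOpen T) {f g : Cn n → ℂ} (h : ∀ x ∈ T, f x = g x) {x : Cn n}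
    (hx : x ∈ T) (k : Fin n) : cd k f x = cd k g x := by
  refine Pool.Agent.Helper93.SP.cd_congr k ?_
  filter_upwards [hT.mem_nhds hx] with y hy
  exact h y hy

theorem chf_congr (hT : IsOpen T) {X Y : Cn n → Matrix (Fin n) (Fin n) ℂ}
    (h : ∀ x ∈ T, X x = Y x) (hX : CHF X T) : CHF Y T := by
  refine ⟨fun i j => ?_, fun x hx => ?_, fun x hx i j l => ?_⟩
  · refine (hX.smooth i j).congr fun x hx => ?_
    rw [h x hx]
  · rw [← h x hx]
    exact hX.herm x hx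
  · have h1 := hX.closed x hx i j l
    rw [cd_congr_on hT (f := fun y => X y i j) (g := fun y => Y y i j)
      (fun y hy => by rw [h y hy]) hx l,
      cd_congr_on hT (f := fun y => X y l j) (g := fun y => Y y l j)
      (fun y hy => by rw [h y hy]) hx i] at h1
    exact h1

theorem invH_congr (hE : Et T R) {X Y : Cn n → Matrix (Fin n) (Fin n) ℂ}
    (h : ∀ x ∈ T, X x = Y x) (hX : InvH R X) : InvH R Y := by
  intro U τ hA x hx u v
  obtain ⟨-, -, γ, hγ⟩ := id hA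
  obtain ⟨m1, m2⟩ := hE.mem γ x (τ x) (hγ x hx)
  have h1 := hX U τ hA x hx u v
  rw [h x m1, h _ m2] at h1
  exact h1

theorem chi_chf (hRHOI : S_RHOI.{u}) (D : TDat T R H h χ μ ψ) : CHF χ T :=
  chf_congr D.ket.et.isOpen (fun x hx => (D.chi x hx).symm) (chi_forms hRHOI D).1

theorem chi_inv (hRHOI : S_RHOI.{u}) (D : TDat T R H h χ μ ψ) : InvH R χ :=
  invH_congr D.ket.et (fun x hx => (D.chi x hx).symm) (chi_forms hRHOI D).2

/-- Adding a closed invariant semidefinite form to a Kähler metric. -/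
theorem ket_tw (hRHOI : S_RHOI.{u}) (D : TDat T R H h χ μ ψ)
    {H' : Cn n → Matrix (Fin n) (Fin n) ℂ} (hH' : KEt T R H') {ε : ℝ} (hε : 0 < ε) :
    KEt T R (tw χ ε H') := by
  have hT := D.ket.et.isOpen
  have h1 := Pool.Agent.Helper61.GS.ket_add hH'
    (Pool.Agent.Helper97.HS.chf_sm hT (chi_chf hRHOI D) ε⁻¹)
    (Pool.Agent.Helper97.HS.invH_sm (chi_inv hRHOI D) ((ε⁻¹ : ℝ) : ℂ))
    fun x hx => (D.psd x hx).smul (Complex.zero_le_real.2 (inv_pos.2 hε).le)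
  exact h1

theorem smul_tw (χ H' : Cn n → Matrix (Fin n) (Fin n) ℂ) {ε : ℝ} (hε : 0 < ε) (x : Cn n) :
    (ε : ℂ) • tw χ ε H' x = (ε : ℂ) • H' x + χ x := by
  unfold tw
  rw [smul_add, smul_smul, ← Complex.ofReal_mul, mul_inv_cancel₀ hε.ne', Complex.ofReal_one,
    one_smul]

end

/-- TFAM. -/
theorem tfam (hWIRT : S_WIRT) (hRHOI : S_RHOI.{u}) : S_TFAM.{u} := by
  intro n T G _ R H h χ μ ψ D N φ H' hF ε hε
  have hT := D.ket.et.isOpen
  refine ⟨ket_tw hRHOI D hF.ket hε, ?_, ?_, ?_⟩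
  · have h1 := hF.nn
    have h2 := D.mu
    positivity
  · refine ⟨hF.inv.1.add (contDiffOn_const.mul D.psi.1), fun γ x y hR => ?_⟩
    have h0 := hF.inv.2 γ x y hR
    have h1 := D.psi.2 γ x y hR
    simp only
    rw [h0, h1]
  · intro x hx
    have e1 : (fun y => φ y + ε⁻¹ * ψ y) = fun y => 1 * φ y + ε⁻¹ * ψ y := by
      funext y; ring
    rw [e1, Pool.Agent.Helper94.HS.LM_lin hWIRT hT hF.inv.1 D.psi.1 1 ε⁻¹ hx]
    unfold tw
    rw [hF.eq x hx, D.chi x hx]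
    push_cast
    module

/-- TEX. -/
theorem tex (hAYG : S_AYG.{u}) (hWIRT : S_WIRT) (hRHOI : S_RHOI.{u}) : S_TEX.{u} := by
  intro n T G _ R H h χ μ ψ D H' hH' ε hε
  have hT := D.ket.et.isOpen
  have hμ := D.mu
  -- the Kähler metric `X = ε H' + (1 + 1/μ) χ` in the class of `rho H + X₀`, `X₀ = ε H' + χ`
  have hX : KEt T R fun x => (ε : ℂ) • H' x + ((1 + μ⁻¹ : ℝ) : ℂ) • χ x := by
    refine Pool.Agent.Helper61.GS.ket_add (ket_smul hH' hε)
      (Pool.Agent.Helper97.HS.chf_sm hT (chi_chf hRHOI D) (1 + μ⁻¹))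
      (Pool.Agent.Helper97.HS.invH_sm (chi_inv hRHOI D) ((1 + μ⁻¹ : ℝ) : ℂ)) fun x hx => ?_
    exact (D.psd x hx).smul (Complex.zero_le_real.2 (by positivity))
  have hf : InvF T R (fun x => μ⁻¹ * ψ x) := by
    refine ⟨contDiffOn_const.mul D.psi.1, fun γ x y hR => ?_⟩
    have h1 := D.psi.2 γ x y hR
    simp only
    rw [h1]
  obtain ⟨Q, hQ, hQe⟩ := of_pot hAYG hWIRT hRHOI (B := H)
    (X₀ := fun x => (ε : ℂ) • H' x + χ x) D.ket hX hf (fun x hx => by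
      have e1 : (fun y => μ⁻¹ * ψ y) = fun y => μ⁻¹ * ψ y + 0 * ψ y := by
        funext y; ring
      rw [e1, Pool.Agent.Helper94.HS.LM_lin hWIRT hT D.psi.1 D.psi.1 μ⁻¹ 0 hx]
      have h1 : ((μ⁻¹ : ℝ) : ℂ) • χ x = rho H x + ((μ⁻¹ : ℝ) : ℂ) • LM ψ x := by
        rw [D.chi x hx, smul_add, smul_smul, ← Complex.ofReal_mul, inv_mul_cancel₀ hμ.ne',
          Complex.ofReal_one, one_smul]
      have h2 : ((1 + μ⁻¹ : ℝ) : ℂ) • χ x = χ x + ((μ⁻¹ : ℝ) : ℂ) • χ x := by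
        push_cast
        module
      rw [h2, h1]
      push_cast
      module)
  refine ⟨Q, hQ, fun x hx => ?_⟩
  rw [hQe x hx, smul_tw χ H' hε]

/-- The Chern–Lu identity for a twisted metric. -/
theorem tw_cl (hCL : S_CL) {n : ℕ} {T : Set (Cn n)} {G : Type u} [Group G]
    {R : G → Cn n → Cn n → Prop} {H' h χ Q : Cn n → Matrix (Fin n) (Fin n) ℂ}
    (hher : HerT T R h) {ε : ℝ} (hε : 0 < ε) (hQ : TKE T R (tw χ ε H') ε Q) {x : Cn n}
    (hx : x ∈ T) : 0 ≤ AAt h Q x ∧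
      (trL Q (fun y => (Matrix.trace (h y * (Q y)⁻¹)).re) x).re =
    - (Matrix.trace (h x * (Q x)⁻¹)).re +
      ε * (Matrix.trace (H' x * (Q x)⁻¹ * h x * (Q x)⁻¹)).re +
      ((Matrix.trace (χ x * (Q x)⁻¹ * h x * (Q x)⁻¹)).re - KKt h Q x) + AAt h Q x := by
  obtain ⟨h1, h2⟩ := hCL T hQ.ket.et.isOpen Q h (fun x => (ε : ℂ) • tw χ ε H' x)
    (chf_ket hQ.ket) hQ.ket.posDef hQ.eq hher.smooth hher.posDef x hx
  refine ⟨h1, ?_⟩
  rw [h2]
  simp only [smul_tw χ H' hε]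
  rw [Matrix.add_mul, Matrix.add_mul, Matrix.add_mul, Matrix.trace_add, Complex.add_re,
    Matrix.smul_mul, Matrix.smul_mul, Matrix.smul_mul, Matrix.trace_smul, smul_eq_mul,
    Complex.re_ofReal_mul]
  ring

/-- TMON. -/
theorem tmon (hMAXF : Pool.Agent.Helper95.HS.S_MAXF.{u})
    (hTRI : Pool.Agent.Helper95.HS.S_TRI.{u}) (hCL : S_CL) : S_TMON.{u} := by
  intro n T G _ R H' h χ hket hher htrb s hs ε Q hε hQ x hx
  have hT := hket.et.isOpen
  have hinv : InvF T R (fun x => (Matrix.trace (h x * (Q x)⁻¹)).re) :=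
    (hTRI T R Q hQ.ket).1 h hher.smooth hher.inv
  obtain ⟨x₀, hx₀, hmax, hpsd⟩ := hMAXF T R hket.et _ hinv
  have hQp := hQ.ket.posDef x₀ hx₀
  obtain ⟨hAA, hcl⟩ := tw_cl hCL hher hε hQ hx₀
  have hKK : KKt h Q x₀ ≤ (Matrix.trace (χ x₀ * (Q x₀)⁻¹ * h x₀ * (Q x₀)⁻¹)).re :=
    htrb x₀ hx₀ _ hQp.posSemidef.inv
  have hle : (trL Q (fun y => (Matrix.trace (h y * (Q y)⁻¹)).re) x₀).re ≤ 0 := by
    have h1 := tr_mul_nonneg hQp.posSemidef.inv hpsd
    rw [Matrix.mul_neg, Matrix.trace_neg, Complex.neg_re] at h1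
    unfold trL
    linarith
  obtain ⟨ht0, hb0, ha0, hcs⟩ := cs_tr (hket.posDef x₀ hx₀) (hher.posDef x₀ hx₀).posSemidef hQp
  have hsb := hs x₀ hx₀
  rw [hcl] at hle
  set t := (Matrix.trace (h x₀ * (Q x₀)⁻¹)).re with ht
  set a := (Matrix.trace (H' x₀ * (Q x₀)⁻¹ * h x₀ * (Q x₀)⁻¹)).re with ha
  set b := (Matrix.trace (h x₀ * (H' x₀)⁻¹)).re with hb
  have h1 : ε * a ≤ t := by linarith
  have h2 : ε * t ≤ s := by
    rcases ht0.eq_or_lt with h0 | h0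
    · rw [← h0, mul_zero]
      linarith
    · have h3 : ε * t * t ≤ s * t := by
        calc ε * t * t = ε * t ^ 2 := by ring
          _ ≤ ε * (a * b) := mul_le_mul_of_nonneg_left hcs hε.le
          _ = (ε * a) * b := by ring
          _ ≤ t * b := mul_le_mul_of_nonneg_right h1 hb0
          _ ≤ t * s := mul_le_mul_of_nonneg_left hsb h0.le
          _ = s * t := by ring
      exact le_of_mul_le_mul_right h3 h0
  exact (mul_le_mul_of_nonneg_left (hmax x hx) hε.le).trans h2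

/-- TSEQ. -/
theorem tseq (hMAXF : Pool.Agent.Helper95.HS.S_MAXF.{u})
    (hTRI : Pool.Agent.Helper95.HS.S_TRI.{u}) (hCMP : Pool.Agent.Helper95.HS.S_CMP.{u})
    (hTEX : S_TEX.{u}) (hTMON : S_TMON.{u}) (hTFAM : S_TFAM.{u}) (hRFAM : S_RFAM.{u}) :
    S_TSEQ.{u} := by
  intro n T G _ R H h χ μ ψ D
  have hH := D.ket
  have hT := hH.et.isOpen
  obtain ⟨p₀, hp₀⟩ := hH.et.nonempty
  have hinvf : ∀ Q : Cn n → Matrix (Fin n) (Fin n) ℂ, KEt T R Q →
      InvF T R (fun x => (Matrix.trace (h x * (Q x)⁻¹)).re) := fun Q hQ =>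
    (hTRI T R Q hQ).1 h D.her.smooth D.her.inv
  set A : Set ℝ := {s | ∃ (N : ℝ) (φ : Cn n → ℝ) (H' : Cn n → Matrix (Fin n) (Fin n) ℂ),
    Fam T R H N φ H' ∧ SupB T h H' s} with hA
  have hne : A.Nonempty := by
    obtain ⟨x₀, hx₀, hmax, -⟩ := hMAXF T R hH.et _ (hinvf H hH)
    refine ⟨_, 0, fun _ => 0, H, ⟨hH, le_rfl, ⟨contDiffOn_const, fun _ _ _ _ => rfl⟩, ?_⟩, hmax⟩
    intro x _
    rw [Pool.Agent.Helper94.HS.LM_const]
    simp
  have hlow : ∀ s ∈ A, 0 ≤ s := by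
    rintro s ⟨N, φ, H', hF, hs⟩
    refine le_trans ?_ (hs p₀ hp₀)
    exact tr_mul_nonneg (D.her.posDef p₀ hp₀).posSemidef (hF.ket.posDef p₀ hp₀).posSemidef.inv
  have hbdd : BddBelow A := ⟨0, fun s hs => hlow s hs⟩
  set s := sInf A with hs
  have hs0 : 0 ≤ s := le_csInf hne hlow
  have hex : ∀ j : ℕ, ∃ (S N : ℝ) (φ : Cn n → ℝ) (H' : Cn n → Matrix (Fin n) (Fin n) ℂ)
      (ε : ℝ) (Q : Cn n → Matrix (Fin n) (Fin n) ℂ),
      s ≤ S ∧ S ≤ s + 1 / ((j : ℝ) + 1) ∧ Fam T R H N φ H' ∧ SupB T h H' S ∧ 0 < ε ∧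
      ε ≤ 1 / ((j : ℝ) + 1) ∧ ε * N ≤ 1 / ((j : ℝ) + 1) ∧
      (∀ x ∈ T, (H x - (ε : ℂ) • H' x - χ x).PosSemidef) ∧ TKE T R (tw χ ε H') ε Q ∧
      (∀ x ∈ T, ε * (Matrix.trace (h x * (Q x)⁻¹)).re ≤ S) ∧
      ∃ x ∈ T, s ≤ ε * (Matrix.trace (h x * (Q x)⁻¹)).re := by
    intro j
    have hj : (0 : ℝ) < 1 / ((j : ℝ) + 1) := by positivity
    set d : ℝ := 1 / ((j : ℝ) + 1) with hd
    obtain ⟨S, ⟨N, φ, H', hF, hS⟩, hlt⟩ := exists_lt_of_csInf_lt hne (show sInf A < s + d by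
      rw [← hs]; linarith)
    obtain ⟨c, hc, hcm⟩ := hCMP T R H' H hF.ket hH
    have hN := hF.nn
    set ε : ℝ := min (min d (d / (N + 1))) (c / 2) with hε
    have hε0 : 0 < ε := by
      rw [hε]
      refine lt_min (lt_min hj (by positivity)) (by positivity)
    have he1 : ε ≤ d := (min_le_left _ _).trans (min_le_left _ _)
    have he2 : ε ≤ d / (N + 1) := (min_le_left _ _).trans (min_le_right _ _)
    have he4 : ε ≤ c / 2 := min_le_right _ _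
    obtain ⟨Q, hQ⟩ := hTEX T R H h χ μ ψ D H' hF.ket ε hε0
    refine ⟨S, N, φ, H', ε, Q, csInf_le hbdd ⟨N, φ, H', hF, hS⟩, hlt.le, hF, hS, hε0, he1, ?_,
      ?_, hQ, hTMON T R H' h χ hF.ket D.her D.trb S hS ε Q hε0 hQ, ?_⟩
    · rw [le_div_iff₀ (by positivity)] at he2
      nlinarith
    · intro x hx
      have e : H x - (ε : ℂ) • H' x - χ x = ((1 / 2 : ℝ) : ℂ) • (H x - (c : ℂ) • H' x) +
          ((c / 2 - ε : ℝ) : ℂ) • H' x + ((1 / 2 : ℝ) : ℂ) • (H x - (2 : ℂ) • χ x) := by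
        push_cast
        module
      rw [e]
      refine (((hcm x hx).smul (Complex.zero_le_real.2 (by norm_num))).add
        ((hF.ket.posDef x hx).posSemidef.smul (Complex.zero_le_real.2 (by linarith)))).add
        ((D.le x hx).smul (Complex.zero_le_real.2 (by norm_num)))
    · obtain ⟨x₀, hx₀, hmax, -⟩ := hMAXF T R hH.et _ (hinvf Q hQ.ket)
      refine ⟨x₀, hx₀, ?_⟩
      have hFQ := (hRFAM T R H hH _ _ _ (hTFAM T R H h χ μ ψ D N φ H' hF ε hε0) ε Q hε0 hQ).1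
      refine csInf_le hbdd ⟨_, _, _, hFQ, ?_⟩
      intro x hx
      rw [tr_smul_inv (hQ.ket.posDef x hx) hε0]
      exact mul_le_mul_of_nonneg_left (hmax x hx) hε0.le
  choose S N φ H' ε Q h1 h2 h3 h4 h5 h6 h7 h8 h9 h10 h11 using hex
  exact ⟨s, S, N, φ, H', ε, Q, ⟨hs0, h1, h2, h3, h4, h5, h6, h7, h8, h9, h10, h11⟩⟩

end Pool.Agent.Helper27.TRB
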