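import Pool.Agent.Helper27.TRB.Goals2

/-! # TRB: the data of HB (TOUT) -/

open Complex Metric Set Filter Topology MeasureTheory
open scoped ContDiff ComplexConjugate ComplexOrder Manifold Matrix

namespace Pool.Agent.Helper27.TRB

open Pool.Agent.Helper95.Lin Pool.Agent.Helper16.Abund Pool.Agent.Helper92.Orb
  Pool.Agent.Helper10.SP Pool.Agent.Helper95.RK Pool.Agent.Helper57.HS
  Pool.Agent.Helper15.HS Pool.Agent.Helper15.GS Pool.Agent.Helper57.RBC
  Pool.Agent.Helper82.HB

universe u

theorem tout (hCSY : S_CSY) (hTCOR : S_TCOR.{u}) (hTB3 : S_TB3.{u}) :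
    S_TOUT.{u} := by
  intro n hn T G _ R H h χ μ ψ D
  obtain ⟨r, P, hP⟩ := hTCOR hn T R H h χ μ ψ D
  obtain ⟨ψ', hψ', hpos⟩ := hTB3 hn T R H h χ μ ψ D r P hP
  have hT : IsOpen T := D.ket.et.isOpen
  have hg : ∀ x ∈ T, gS P h x = P x * h x := by
    intro x hx
    unfold gS
    rw [Matrix.mul_assoc, ← hP.herm x hx, ← Matrix.mul_assoc, hP.proj x hx]
  refine ⟨P, ψ', D.ket, ⟨hP.holo, D.her.posDef, D.her.smooth, ?_, ?_⟩, hψ', fun x hx => ?_⟩
  · -- invariance
    intro U τ hA x hx u v
    obtain ⟨-, -, γ, hγ⟩ := id hA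
    obtain ⟨m1, m2⟩ := D.ket.et.mem γ x (τ x) (hγ x hx)
    rw [hg x m1, hg _ m2]
    exact hP.inv U τ hA x hx u v
  · -- the curvature vanishes along `P`
    intro x hx u w
    have hz : ∀ k l, P x * (RE h k l x * h x) = 0 := by
      intro k l
      ext i j
      rw [Matrix.mul_apply, Matrix.zero_apply]
      have h0 := hP.null x hx i j k l
      have h1 : ∀ p, P x i p * (RE h k l x * h x) p j = -(P x i p * crv h x p j k l) := by
        intro p
        have h2 := (hCSY T hT h D.her.posDef D.her.smooth x hx).1 p j k l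
        rw [h2]
        unfold RE
        have h3 : GamE h k = Gam h k := rfl
        rw [h3]
        ring
      rw [Finset.sum_congr rfl fun p _ => h1 p, Finset.sum_neg_distrib, h0, neg_zero]
    simp only [hz, Matrix.zero_mul]
    simp [hermi]
  · rw [hg x hx]
    exact hpos x hx

end Pool.Agent.Helper27.TRB
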