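import Pool.Agent.Helper27.TRB.Goals
import Pool.Agent.Helper57.HX.Defs
import Pool.Agent.Helper82.HB.GoalsB
import Pool.Agent.Helper45.HB.GoalsM

/-!
# TRB: goals, second part: from the projector to the data of HB, and the link to manifolds
-/

open Complex Metric Set Filter Topology MeasureTheory
open scoped ContDiff ComplexConjugate ComplexOrder Manifold Matrix

namespace Pool.Agent.Helper27.TRB

open Pool.Agent.Helper95.Lin Pool.Agent.Helper16.Abund Pool.Agent.Helper92.Orb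
  Pool.Agent.Helper10.SP Pool.Agent.Helper95.RK Pool.Agent.Helper57.HS
  Pool.Agent.Helper15.HS Pool.Agent.Helper10.HS Pool.Agent.Helper15.GS Pool.Agent.Helper57.RBC
  Pool.Agent.Helper82.HB Pool.Agent.Helper57.HX
open Pool.Agent.Helper10.RBC (dn)
open Pool.Agent.Helper95.HS (vol)

universe u v

/-- The projector. -/
structure ParT {n : ℕ} (r : ℕ) (T : Set (Cn n)) {G : Type u} [Group G]
    (R : G → Cn n → Cn n → Prop) (H h χ P : Cn n → Matrix (Fin n) (Fin n) ℂ) : Prop where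
  holo : ∀ i j, DifferentiableOn ℂ (fun x => P x i j) T
  proj : ∀ x ∈ T, P x * P x = P x
  tr : ∀ x ∈ T, Matrix.trace (P x) = r
  herm : ∀ x ∈ T, P x * h x = h x * (P x)ᴴ
  inv : InvH R fun x => P x * h x
  chf : CHF (fun x => P x * h x) T
  null : ∀ x ∈ T, ∀ i j l m, ∑ p, P x i p * crv h x p j l m = 0
  chi : ∀ x ∈ T, P x * χ x = 0
  vol : ∀ κ, IsPUE T R κ → 0 < ∫ x in T, κ x * (rho H x + (P x * h x + χ x)).det.re

/-- TGLG. The differential inequality for the logarithm of the trace (as `GLG`, `Helper46/GS/GLG.lean`). -/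
def S_TGLG : Prop := ∀ {n : ℕ}, 0 < n → ∀ (T : Set (Cn n)) {G : Type u} [Group G]
  (R : G → Cn n → Cn n → Prop) (h χ Q η : Cn n → Matrix (Fin n) (Fin n) ℂ), HerT T R h →
  TRBC h χ T → KEt T R Q → (∀ x ∈ T, (η x - χ x).PosSemidef) →
  (∀ x ∈ T, rho Q x = Q x - η x) →
  InvF T R (fun x => (Matrix.trace (h x * (Q x)⁻¹)).re) ∧ ∀ x ∈ T,
    0 < (Matrix.trace (h x * (Q x)⁻¹)).re ∧
    -1 ≤ (trL Q (fun y => Real.log (Matrix.trace (h y * (Q y)⁻¹)).re) x).re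

/-- TVOL. Positivity of the volume. -/
def S_TVOL : Prop := ∀ {n : ℕ} (T : Set (Cn n)) {G : Type u} [Group G]
  (R : G → Cn n → Cn n → Prop) (H h χ : Cn n → Matrix (Fin n) (Fin n) ℂ) (μ : ℝ) (ψ : Cn n → ℝ),
  TDat T R H h χ μ ψ → ∀ κ, IsPUE T R κ → ∀ (k : ℕ) (p : Polynomial ℝ), 0 < p.eval 0 →
  (∀ s : ℝ, VolP T κ H s = s ^ k * p.eval s) →
  ∀ (r : ℕ) (P : Cn n → Matrix (Fin n) (Fin n) ℂ), (∀ x ∈ T, P x * P x = P x) →
  (∀ x ∈ T, P x * h x = h x * (P x)ᴴ) → (∀ x ∈ T, Matrix.trace (P x) = r) →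
  CHF (fun x => P x * h x) T → (InvH R fun x => P x * h x) → (∀ x ∈ T, P x * χ x = 0) → k ≤ r →
  0 < ∫ x in T, κ x * (rho H x + (P x * h x + χ x)).det.re

/-- TCOR. The projector exists. -/
def S_TCOR : Prop := ∀ {n : ℕ}, 0 < n → ∀ (T : Set (Cn n)) {G : Type u} [Group G]
  (R : G → Cn n → Cn n → Prop) (H h χ : Cn n → Matrix (Fin n) (Fin n) ℂ) (μ : ℝ) (ψ : Cn n → ℝ),
  TDat T R H h χ μ ψ →
  ∃ (r : ℕ) (P : Cn n → Matrix (Fin n) (Fin n) ℂ), ParT r T R H h χ P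

/-- TB3. The form `rho H + LM ψ' + P h` is positive definite for some `ψ'`. -/
def S_TB3 : Prop := ∀ {n : ℕ}, 0 < n → ∀ (T : Set (Cn n)) {G : Type u} [Group G]
  (R : G → Cn n → Cn n → Prop) (H h χ : Cn n → Matrix (Fin n) (Fin n) ℂ) (μ : ℝ) (ψ : Cn n → ℝ),
  TDat T R H h χ μ ψ → ∀ (r : ℕ) (P : Cn n → Matrix (Fin n) (Fin n) ℂ),
  ParT r T R H h χ P → ∃ ψ' : Cn n → ℝ, InvF T R ψ' ∧
  ∀ x ∈ T, (rho H x + LM ψ' x + P x * h x).PosDef

/-- TOUT. The data of HB. -/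
def S_TOUT : Prop := ∀ {n : ℕ}, 0 < n → ∀ (T : Set (Cn n)) {G : Type u} [Group G]
  (R : G → Cn n → Cn n → Prop) (H h χ : Cn n → Matrix (Fin n) (Fin n) ℂ) (μ : ℝ) (ψ : Cn n → ℝ),
  TDat T R H h χ μ ψ →
  ∃ (P : Cn n → Matrix (Fin n) (Fin n) ℂ) (ψ' : Cn n → ℝ), HDat T R H P h ψ'

/-- MAINP (packet, helper10). The main theorem HB from the data on the étale relation. It is `mainh`
(`Helper10/HB/MAINH.lean`) from the line `obtain ⟨k, Q, PP, ...⟩ := hHOUT ...` on, for arbitrary `H`, `σ`, `h`, `ψ`. -/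
def S_MAINP : Prop := ∀ {n m : ℕ} {G : Type u} {M : Type v} [Group G] [MulAction G M]
  [TopologicalSpace M] [T2Space M] [ConnectedSpace M] [ChartedSpace (Fin n → ℂ) M]
  [IsManifold 𝓘(ℂ, Fin n → ℂ) ω M] {om : M → Matrix (Fin n) (Fin n) ℂ}, 0 < n →
  DataH n G M om → ∀ (T : Set (Cn n)) (E : Cn n → M), Par n E T →
  (∃ C ⊆ T, IsCompact C ∧ ∀ p : M, ∃ (γ : G), ∃ x ∈ C, γ • p = E x) →
  ∀ (H : Cn n → Matrix (Fin n) (Fin n) ℂ) (σ : Cn n → Matrix (Fin n) (Fin m) ℂ)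
    (h : Cn n → Matrix (Fin m) (Fin m) ℂ) (ψ : Cn n → ℝ),
  HDat T (RelT (G := G) T E) H σ h ψ → OrbSemiample n G M

/-- The real bisectional curvature of `q` is bounded by `c` times the form of the volume density `v` (in every
local parametrization): `∑ R(u_a, u_a, u_b, u_b) ≤ c ∑ θ(u_a, u_b) q(u_b, u_a)`. -/
def BndRBC (n : ℕ) (M : Type v) [TopologicalSpace M] [ChartedSpace (Fin n → ℂ) M]
    (q : M → Matrix (Fin n) (Fin n) ℂ) (v : M → ℝ) (c : ℝ) : Prop :=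
  ∀ (V : Set (Fin n → ℂ)) (E : (Fin n → ℂ) → M), Par n E V → ∀ x ∈ V,
    ∀ (m : ℕ) (u : Fin m → Fin n → ℂ), (∑ a, ∑ b, ∑ i, ∑ j, ∑ k, ∑ l,
      crv (pm n q E) x i j k l * u a i * conj (u a j) * u b k * conj (u b l)).re ≤
    c * (∑ a, ∑ b, hermi (LM (lpot n v E) x) (u a) (u b) * hermi (pm n q E x) (u b) (u a)).re

/-- TLNK (packet, helper45). The data on the étale relation, `χ = c LM (lpot n v E)`, `ψ = c (lpot - ld (pm om))`; `C` is large enough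
for `C om - 2 χ ≥ 0` (compactness; `rho (C om) = rho om`). The parts `ket`, `her` as in `HERR`, `psi` and `chi` as in `hdm`, `trb` as `rbc_of` in
`Helper45/RBC/HERR.lean` (`K = Bᴴ B`, `tr (χ K h K) = ∑ χ(B b, B a) h(B a, B b)`). -/
def S_TLNK : Prop := ∀ {n : ℕ} {G : Type u} {M : Type v} [Group G] [MulAction G M]
  [TopologicalSpace M] [T2Space M] [ConnectedSpace M] [ChartedSpace (Fin n → ℂ) M]
  [IsManifold 𝓘(ℂ, Fin n → ℂ) ω M] {om q : M → Matrix (Fin n) (Fin n) ℂ}, 0 < n →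
  DataH n G M om → HermMetric n M q → (∀ γ : G, InvMetric n q (fun y : M => γ • y)) →
  ∀ v : M → ℝ, CanMetric n M v →
  (∀ (γ : G) (x : M), v (γ • x) * ‖jac n (fun y : M => γ • y) x‖ ^ 2 = v x) → ∀ c : ℝ, 0 < c →
  (∀ (V : Set (Fin n → ℂ)) (E : (Fin n → ℂ) → M), Par n E V → ∀ x ∈ V, ∀ e : Fin n → ℂ,
    0 ≤ lev (lpot n v E) x e) → BndRBC n M q v c →
  ∀ (T : Set (Cn n)) (E : Cn n → M), Par n E T →
  (∃ C ⊆ T, IsCompact C ∧ ∀ p : M, ∃ (γ : G), ∃ x ∈ C, γ • p = E x) → ∃ C : ℝ, 0 < C ∧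
  TDat T (RelT (G := G) T E) (fun x => (C : ℂ) • pm n om E x) (pm n q E)
    (fun x => (c : ℂ) • LM (lpot n v E) x) c
    (fun x => c * (lpot n v E x - ld (pm n om E) x))

/-- The main theorem T, internal form. -/
def S_MAINT : Prop := ∀ {n : ℕ} {G : Type u} {M : Type v} [Group G] [MulAction G M]
  [TopologicalSpace M] [T2Space M] [ConnectedSpace M] [ChartedSpace (Fin n → ℂ) M]
  [IsManifold 𝓘(ℂ, Fin n → ℂ) ω M] {om q : M → Matrix (Fin n) (Fin n) ℂ},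
  DataH n G M om → HermMetric n M q → (∀ γ : G, InvMetric n q (fun y : M => γ • y)) →
  ∀ v : M → ℝ, CanMetric n M v →
  (∀ (γ : G) (x : M), v (γ • x) * ‖jac n (fun y : M => γ • y) x‖ ^ 2 = v x) → ∀ c : ℝ, 0 < c →
  (∀ (V : Set (Fin n → ℂ)) (E : (Fin n → ℂ) → M), Par n E V → ∀ x ∈ V, ∀ e : Fin n → ℂ,
    0 ≤ lev (lpot n v E) x e) → BndRBC n M q v c →
  OrbSemiample n G M

end Pool.Agent.Helper27.TRB
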