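import Pool.Agent.Helper27.TRB.Seq
import Pool.Agent.Helper27.TRB.Goals2
import Pool.Agent.Helper44.RBC.Rd
import Pool.Agent.Helper32.HS.PARF
import Pool.Agent.Helper15.RBC.RV0
import Pool.Agent.Helper5.GS.GAV

/-! # TRB: positivity of the volume (TVOL) -/

open Complex Metric Set Filter Topology MeasureTheory
open scoped ContDiff ComplexConjugate ComplexOrder Manifold Matrix

namespace Pool.Agent.Helper27.TRB

open Pool.Agent.Helper95.Lin Pool.Agent.Helper16.Abund Pool.Agent.Helper92.Orb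
  Pool.Agent.Helper10.SP Pool.Agent.Helper95.RK Pool.Agent.Helper57.HS
  Pool.Agent.Helper15.HS Pool.Agent.Helper15.GS Pool.Agent.Helper57.RBC
  Pool.Agent.Helper57.HX Pool.Agent.Helper16.HS.AYTP
open Pool.Agent.Helper44.RBC (det_mono)
open Pool.Agent.Helper5.GS (integrableOn_kap cont_det)

universe u

/-- `P h ≥ 0`. -/
theorem ph_psd {n : ℕ} {P h : Matrix (Fin n) (Fin n) ℂ} (hh : h.PosDef) (hPP : P * P = P)
    (hPh : P * h = h * Pᴴ) : (P * h).PosSemidef := by
  have e : P * h = P * h * Pᴴ := by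
    rw [Matrix.mul_assoc, ← hPh, ← Matrix.mul_assoc, hPP]
  rw [e]
  exact hh.posSemidef.mul_mul_conjTranspose_same P

/-- `h - P h ≥ 0`. -/
theorem qh_psd {n : ℕ} {P h : Matrix (Fin n) (Fin n) ℂ} (hh : h.PosDef) (hPP : P * P = P)
    (hPh : P * h = h * Pᴴ) : (h - P * h).PosSemidef := by
  have h1 : (1 - P) * (1 - P) = 1 - P := by
    rw [Matrix.mul_sub, Matrix.sub_mul, Matrix.sub_mul, hPP]
    simp
  have h2 : (1 - P) * h = h * (1 - P)ᴴ := by
    rw [Matrix.conjTranspose_sub, Matrix.conjTranspose_one, Matrix.sub_mul, Matrix.mul_sub, hPh]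
    simp
  have h3 := ph_psd hh h1 h2
  rwa [Matrix.sub_mul, Matrix.one_mul] at h3

/-- The factorization of the determinant. -/
theorem det_fac {n r : ℕ} {P h X : Matrix (Fin n) (Fin n) ℂ} (hh : h.PosDef)
    (hPP : P * P = P) (hPh : P * h = h * Pᴴ) (htr : Matrix.trace P = r) (hX : P * X = 0)
    (a : ℝ) : (X + (a : ℂ) • h).det.re =
      a ^ r * (X + P * h + (a : ℂ) • (h - P * h)).det.re := by
  have e1 : X + (a : ℂ) • h = (1 + ((a - 1 : ℝ) : ℂ) • P) *
      (X + P * h + (a : ℂ) • (h - P * h)) := by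
    have e2 : P * (X + P * h + (a : ℂ) • (h - P * h)) = P * h := by
      rw [Matrix.mul_add, Matrix.mul_add, hX, Matrix.mul_smul, Matrix.mul_sub,
        ← Matrix.mul_assoc, hPP]
      simp
    rw [Matrix.add_mul, Matrix.one_mul, Matrix.smul_mul, e2]
    push_cast
    module
  rw [e1, Matrix.det_mul, Pool.Agent.Helper32.HS.proj_det hh hPP hPh htr]
  have e3 : (1 + ((a - 1 : ℝ) : ℂ)) ^ r = ((a ^ r : ℝ) : ℂ) := by
    push_cast
    congr 1
    ring
  rw [e3, Complex.re_ofReal_mul]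

/-- TVOL. -/
theorem tvol (hWIRT : S_WIRT) (hRHOI : S_RHOI.{u}) (hMOMG : S_MOMG.{u}) (hCMPG : S_CMPG.{u}) :
    S_TVOL.{u} := by
  intro n T G _ R H h χ μ ψ D κ hκ k p hp hV r P hPP hPh htr hchf hinv hPχ hkr
  have hH := D.ket
  have hT := hH.et.isOpen
  have hμ := D.mu
  obtain ⟨hr1, hr2, -, hr4, -⟩ := hRHOI T R H hH.et (her_ket hH)
  have hχ := chi_chf hRHOI D
  have hχi := chi_inv hRHOI D
  obtain ⟨c, C, hc, hC, hcmp⟩ := hCMPG T R H h hH D.her
  have hf : InvF T R (fun x => μ⁻¹ * ψ x) := by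
    refine ⟨contDiffOn_const.mul D.psi.1, fun γ x y hR => ?_⟩
    have h1 := D.psi.2 γ x y hR
    simp only
    rw [h1]
  -- `μ⁻¹ χ = rho H + LM (μ⁻¹ ψ)`
  have hcl : ∀ x ∈ T, ((μ⁻¹ : ℝ) : ℂ) • χ x = rho H x + LM (fun y => μ⁻¹ * ψ y) x := by
    intro x hx
    have e1 : (fun y => μ⁻¹ * ψ y) = fun y => μ⁻¹ * ψ y + 0 * ψ y := by
      funext y; ring
    rw [e1, Pool.Agent.Helper94.HS.LM_lin hWIRT hT D.psi.1 D.psi.1 μ⁻¹ 0 hx, D.chi x hx,
      smul_add, smul_smul, ← Complex.ofReal_mul, inv_mul_cancel₀ hμ.ne', Complex.ofReal_one,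
      one_smul]
    simp
  have hX : ∀ x ∈ T, (((μ⁻¹ : ℝ) : ℂ) • χ x).PosSemidef := fun x hx =>
    (D.psd x hx).smul (Complex.zero_le_real.2 (inv_pos.2 hμ).le)
  -- the volume as an integral with `χ`
  have hVs : ∀ s : ℝ, VolP T κ H s =
      ∫ x in T, κ x * (((μ⁻¹ : ℝ) : ℂ) • χ x + (s : ℂ) • H x).det.re := by
    intro s
    have hZ : CHF (fun x => rho H x + (s : ℂ) • H x) T :=
      Pool.Agent.Helper97.HS.chf_ad hT hr1 (Pool.Agent.Helper97.HS.chf_sm hT (chf_ket hH) s)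
    have hZI : InvH R (fun x => rho H x + (s : ℂ) • H x) :=
      Pool.Agent.Helper97.HS.invH_ad hr2 (Pool.Agent.Helper97.HS.invH_sm hH.inv (s : ℂ))
    unfold VolP
    rw [← hMOMG T R H hH κ hκ _ hZ hZI _ hf]
    refine setIntegral_congr_fun hT.measurableSet fun x hx => ?_
    show κ x * (rho H x + (s : ℂ) • H x + LM (fun y => μ⁻¹ * ψ y) x).det.re = _
    rw [hcl x hx]
    congr 3
    abel
  -- the comparison
  set F : ℝ → ℝ := fun s => ∫ x in T, κ x *
    ((((μ⁻¹ : ℝ) : ℂ) • χ x + P x * h x) + (s : ℂ) • ((C : ℂ) • (h x - P x * h x))).det.re with hF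
  have hsmA : ∀ i j, ContDiffOn ℝ ∞ (fun x => (((μ⁻¹ : ℝ) : ℂ) • χ x + P x * h x) i j) T := by
    intro i j
    simp only [Matrix.add_apply, Matrix.smul_apply, smul_eq_mul]
    exact (contDiffOn_const.mul (hχ.smooth i j)).add (hchf.smooth i j)
  have hsmB : ∀ i j, ContDiffOn ℝ ∞ (fun x => ((C : ℂ) • (h x - P x * h x)) i j) T := by
    intro i j
    simp only [Matrix.sub_apply, Matrix.smul_apply, smul_eq_mul]
    exact contDiffOn_const.mul ((D.her.smooth i j).sub (hchf.smooth i j))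
  have hFc : ContinuousOn F (Icc (0 : ℝ) 2) := Pool.Agent.Helper15.RBC.cont_vol hT hκ.test
    (fun i j => (hsmA i j).continuousOn) fun i j => (hsmB i j).continuousOn
  have hle : ∀ s : ℝ, 0 < s → VolP T κ H s ≤ (s * C) ^ r * F s := by
    intro s hs
    rw [hVs s, hF, ← integral_const_mul]
    refine setIntegral_mono_on ?_ ?_ hT.measurableSet fun x hx => ?_
    · refine integrableOn_kap hT hκ.test (cont_det fun i j => ?_)
      simp only [Matrix.add_apply, Matrix.smul_apply, smul_eq_mul]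
      exact (contDiffOn_const.mul (hχ.smooth i j)).add (contDiffOn_const.mul (hH.smooth i j))
    · refine (integrableOn_kap hT hκ.test (cont_det fun i j => ?_)).const_mul _
      have := (hsmA i j).add ((contDiffOn_const (c := (s : ℂ))).mul (hsmB i j))
      refine this.congr fun x _ => ?_
      simp only [Matrix.add_apply, Matrix.smul_apply, smul_eq_mul, Pi.add_apply, Pi.mul_apply]
    · have h1 := det_mono (((μ⁻¹ : ℝ) : ℂ) • χ x + (s : ℂ) • H x)
        ((s : ℂ) • ((C : ℂ) • h x - H x))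
        ((hX x hx).add ((hH.posDef x hx).posSemidef.smul (Complex.zero_le_real.2 hs.le)))
        ((hcmp x hx).2.smul (Complex.zero_le_real.2 hs.le))
      have e1 : ((μ⁻¹ : ℝ) : ℂ) • χ x + (s : ℂ) • H x + (s : ℂ) • ((C : ℂ) • h x - H x) =
          ((μ⁻¹ : ℝ) : ℂ) • χ x + ((s * C : ℝ) : ℂ) • h x := by
        push_cast
        module
      have e2 := det_fac (X := ((μ⁻¹ : ℝ) : ℂ) • χ x) (D.her.posDef x hx) (hPP x hx) (hPh x hx)
        (htr x hx) (by rw [Matrix.mul_smul, hPχ x hx, smul_zero]) (s * C)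
      rw [e1, e2] at h1
      have e3 : ((μ⁻¹ : ℝ) : ℂ) • χ x + P x * h x + ((s * C : ℝ) : ℂ) • (h x - P x * h x) =
          (((μ⁻¹ : ℝ) : ℂ) • χ x + P x * h x) + (s : ℂ) • ((C : ℂ) • (h x - P x * h x)) := by
        push_cast
        module
      rw [e3] at h1
      calc κ x * (((μ⁻¹ : ℝ) : ℂ) • χ x + (s : ℂ) • H x).det.re
          ≤ κ x * ((s * C) ^ r * ((((μ⁻¹ : ℝ) : ℂ) • χ x + P x * h x) +
            (s : ℂ) • ((C : ℂ) • (h x - P x * h x))).det.re) :=
            mul_le_mul_of_nonneg_left h1 (hκ.nonneg x)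
        _ = _ := by ring
  -- `p(s) ≤ C^r F(s)` for small `s`
  have hps : ∀ᶠ s in 𝓝[>] (0 : ℝ), p.eval s ≤ C ^ r * F s := by
    have h1 : Tendsto (fun s : ℝ => p.eval s) (𝓝[>] (0 : ℝ)) (𝓝 (p.eval 0)) :=
      (p.continuous.tendsto 0).mono_left nhdsWithin_le_nhds
    have h2 : ∀ᶠ s in 𝓝[>] (0 : ℝ), 0 < p.eval s := h1.eventually (lt_mem_nhds hp)
    have h3 : ∀ᶠ s in 𝓝[>] (0 : ℝ), s < 1 :=
      (Filter.Tendsto.eventually (tendsto_id.mono_left nhdsWithin_le_nhds) (gt_mem_nhds one_pos))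
    filter_upwards [h2, h3, self_mem_nhdsWithin] with s hs1 hs2 hs3
    have hs : 0 < s := hs3
    have h4 := hle s hs
    rw [hV s] at h4
    have h5 : s ^ r * p.eval s ≤ s ^ k * p.eval s :=
      mul_le_mul_of_nonneg_right (pow_le_pow_of_le_one hs.le hs2.le hkr) hs1.le
    have h6 : s ^ r * p.eval s ≤ s ^ r * (C ^ r * F s) := by
      refine (h5.trans h4).trans (le_of_eq ?_)
      rw [mul_pow]
      ring
    exact le_of_mul_le_mul_left h6 (pow_pos hs r)
  have hF0 : 0 < F 0 := by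
    have h1 : Tendsto (fun s : ℝ => p.eval s) (𝓝[>] (0 : ℝ)) (𝓝 (p.eval 0)) :=
      (p.continuous.tendsto 0).mono_left nhdsWithin_le_nhds
    have h2 : Tendsto F (𝓝[>] (0 : ℝ)) (𝓝 (F 0)) := by
      have h3 := hFc 0 ⟨le_rfl, by norm_num⟩
      refine h3.mono_left ?_
      refine nhdsWithin_le_of_mem ?_
      have h4 : Ioo (0 : ℝ) 2 ∈ 𝓝[>] (0 : ℝ) := Ioo_mem_nhdsGT (by norm_num)
      exact Filter.mem_of_superset h4 Ioo_subset_Icc_self
    have h3 := le_of_tendsto_of_tendsto h1 (h2.const_mul (C ^ r)) hps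
    have h4 : 0 < C ^ r * F 0 := hp.trans_le h3
    exact (pos_iff_pos_of_mul_pos h4).1 (pow_pos hC r)
  -- the class of `rho H + P h + χ`
  have hZ : CHF (fun x => rho H x + (P x * h x + χ x)) T :=
    Pool.Agent.Helper97.HS.chf_ad hT hr1 (Pool.Agent.Helper97.HS.chf_ad hT hchf hχ)
  have hZI : InvH R (fun x => rho H x + (P x * h x + χ x)) :=
    Pool.Agent.Helper97.HS.invH_ad hr2 (Pool.Agent.Helper97.HS.invH_ad hinv hχi)
  rw [← hMOMG T R H hH κ hκ _ hZ hZI _ hf]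
  refine hF0.trans_le ?_
  rw [hF]
  refine setIntegral_mono_on ?_ ?_ hT.measurableSet fun x hx => ?_
  · have := integrableOn_kap hT hκ.test (cont_det hsmA)
    refine this.congr_fun (fun x _ => ?_) hT.measurableSet
    simp
  · refine integrableOn_kap hT hκ.test (cont_det fun i j => ?_)
    exact (hZ.smooth i j).add ((hr4 _ hf).1.smooth i j)
  · have h1 := det_mono (((μ⁻¹ : ℝ) : ℂ) • χ x + P x * h x) (χ x)
      ((hX x hx).add (ph_psd (D.her.posDef x hx) (hPP x hx) (hPh x hx))) (D.psd x hx)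
    have e1 : ((μ⁻¹ : ℝ) : ℂ) • χ x + P x * h x + χ x =
        rho H x + (P x * h x + χ x) + LM (fun y => μ⁻¹ * ψ y) x := by
      rw [hcl x hx]
      abel
    rw [e1] at h1
    rw [Complex.ofReal_zero, zero_smul, add_zero]
    exact mul_le_mul_of_nonneg_left h1 (hκ.nonneg x)

end Pool.Agent.Helper27.TRB
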