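import Pool.Agent.Helper57.RBC.Goals3
import Pool.Agent.Helper15.RBC.GoalsE

/-!
# TRB: a Hermitian metric whose real bisectional curvature is bounded by a semipositive form in the canonical class

`H` is an invariant Kähler metric, `h` an invariant Hermitian metric, `χ = μ rho H + LM ψ ≥ 0` with `μ > 0`, and the real
bisectional curvature of `h` satisfies `crv(K, K) ≤ tr (χ K h K)` for `K ≥ 0`. The twisted metrics are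
`rho Q = Q - ε H' - χ`, i.e. `TKE` for the background `tw χ ε H' = H' + χ/ε`.
-/

open Complex Metric Set Filter Topology MeasureTheory
open scoped ContDiff ComplexConjugate ComplexOrder Manifold Matrix

namespace Pool.Agent.Helper27.TRB

open Pool.Agent.Helper95.Lin Pool.Agent.Helper16.Abund Pool.Agent.Helper92.Orb
  Pool.Agent.Helper10.SP Pool.Agent.Helper95.RK Pool.Agent.Helper57.HS
  Pool.Agent.Helper15.HS Pool.Agent.Helper15.GS Pool.Agent.Helper57.RBC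
open Pool.Agent.Helper10.RBC (dn)
open Pool.Agent.Helper95.HS (vol)

universe u v

/-- The bound of the real bisectional curvature. -/
def TRBC {n : ℕ} (h χ : Cn n → Matrix (Fin n) (Fin n) ℂ) (W : Set (Cn n)) : Prop :=
  ∀ x ∈ W, ∀ K : Matrix (Fin n) (Fin n) ℂ, K.PosSemidef →
    (crvP h K K x).re ≤ (Matrix.trace (χ x * K * h x * K)).re

/-- The data. -/
structure TDat {n : ℕ} (T : Set (Cn n)) {G : Type u} [Group G] (R : G → Cn n → Cn n → Prop)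
    (H h χ : Cn n → Matrix (Fin n) (Fin n) ℂ) (μ : ℝ) (ψ : Cn n → ℝ) : Prop where
  ket : KEt T R H
  her : HerT T R h
  mu : 0 < μ
  psi : InvF T R ψ
  chi : ∀ x ∈ T, χ x = (μ : ℂ) • rho H x + LM ψ x
  psd : ∀ x ∈ T, (χ x).PosSemidef
  le : ∀ x ∈ T, (H x - (2 : ℂ) • χ x).PosSemidef
  trb : TRBC h χ T

/-- The twisted background. -/
noncomputable def tw {n : ℕ} (χ : Cn n → Matrix (Fin n) (Fin n) ℂ) (ε : ℝ)
    (H' : Cn n → Matrix (Fin n) (Fin n) ℂ) (x : Cn n) : Matrix (Fin n) (Fin n) ℂ :=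
  H' x + ((ε⁻¹ : ℝ) : ℂ) • χ x

/-- The minimising sequences. -/
structure SeqT {n : ℕ} (T : Set (Cn n)) {G : Type u} [Group G] (R : G → Cn n → Cn n → Prop)
    (H h χ : Cn n → Matrix (Fin n) (Fin n) ℂ) (s : ℝ) (S N : ℕ → ℝ) (φ : ℕ → Cn n → ℝ)
    (H' : ℕ → Cn n → Matrix (Fin n) (Fin n) ℂ) (ε : ℕ → ℝ)
    (Q : ℕ → Cn n → Matrix (Fin n) (Fin n) ℂ) : Prop where
  nn : 0 ≤ s
  S_ge : ∀ j, s ≤ S j
  S_le : ∀ j, S j ≤ s + 1 / ((j : ℝ) + 1)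
  fam : ∀ j, Fam T R H (N j) (φ j) (H' j)
  sup : ∀ j, SupB T h (H' j) (S j)
  eps : ∀ j, 0 < ε j
  eps_le : ∀ j, ε j ≤ 1 / ((j : ℝ) + 1)
  epsN : ∀ j, ε j * N j ≤ 1 / ((j : ℝ) + 1)
  epsH : ∀ j, ∀ x ∈ T, (H x - (ε j : ℂ) • H' j x - χ x).PosSemidef
  tke : ∀ j, TKE T R (tw χ (ε j) (H' j)) (ε j) (Q j)
  m_le : ∀ j, ∀ x ∈ T, ε j * (Matrix.trace (h x * (Q j x)⁻¹)).re ≤ S j
  m_ge : ∀ j, ∃ x ∈ T, s ≤ ε j * (Matrix.trace (h x * (Q j x)⁻¹)).re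

/-- The weighted limit `A` of `B_j = ε_j h Q_j⁻¹`, and the error terms which tend to zero. -/
structure LimTC {n : ℕ} (T : Set (Cn n)) {G : Type u} [Group G]
    (R : G → Cn n → Cn n → Prop) (κ : Cn n → ℝ) (H h χ A : Cn n → Matrix (Fin n) (Fin n) ℂ)
    (s : ℝ) (S N : ℕ → ℝ) (φ : ℕ → Cn n → ℝ) (H' : ℕ → Cn n → Matrix (Fin n) (Fin n) ℂ)
    (ε : ℕ → ℝ) (Q : ℕ → Cn n → Matrix (Fin n) (Fin n) ℂ) : Prop where
  seq : SeqT T R H h χ s S N φ H' ε Q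
  ctx : Pool.Agent.Helper19.HS.Ctx T h (fun j => dn T κ H (Q j))
    (fun j => Bep (ε j) h (Q j)) A
  holo : ∀ i j, DifferentiableOn ℂ (fun x => A x i j) T
  dinv : ∀ j γ x y, R γ x y → dn T κ H (Q j) y = dn T κ H (Q j) x
  dle : ∃ K : ℝ, 0 < K ∧ ∀ j, ∀ x ∈ T, dn T κ H (Q j) x ≤ K
  gB : ∀ C ⊆ T, IsCompact C → ∃ B : ℝ, ∀ j,
    ∫ x in C, (Matrix.trace (Q j x * (h x)⁻¹)).re ≤ B
  v : ∀ C ⊆ T, IsCompact C → Tendsto (fun j => ∫ x in C, dn T κ H (Q j) x *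
    (S j - ε j * (Matrix.trace (h x * (Q j x)⁻¹)).re)) atTop (𝓝 0)
  aa : ∀ C ⊆ T, IsCompact C → Tendsto (fun j => ∫ x in C, dn T κ H (Q j) x *
    (ε j * AAt h (Q j) x)) atTop (𝓝 0)
  kk : ∀ C ⊆ T, IsCompact C → Tendsto (fun j => ∫ x in C, dn T κ H (Q j) x *
    (ε j * ((Matrix.trace (χ x * (Q j x)⁻¹ * h x * (Q j x)⁻¹)).re - KKt h (Q j) x)))
    atTop (𝓝 0)
  ch : ∀ C ⊆ T, IsCompact C → Tendsto (fun j => ∫ x in C, dn T κ H (Q j) x *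
    (ε j * (Matrix.trace (χ x * (Q j x)⁻¹)).re)) atTop (𝓝 0)

/-- The properties of the limit. -/
structure LimTB {n : ℕ} (T : Set (Cn n)) {G : Type u} [Group G]
    (R : G → Cn n → Cn n → Prop) (κ : Cn n → ℝ) (H h χ A : Cn n → Matrix (Fin n) (Fin n) ℂ)
    (s : ℝ) (S N : ℕ → ℝ) (φ : ℕ → Cn n → ℝ) (H' : ℕ → Cn n → Matrix (Fin n) (Fin n) ℂ)
    (ε : ℕ → ℝ) (Q : ℕ → Cn n → Matrix (Fin n) (Fin n) ℂ) : Prop where
  seq : SeqT T R H h χ s S N φ H' ε Q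
  holo : ∀ i j, DifferentiableOn ℂ (fun x => A x i j) T
  herm : ∀ x ∈ T, A x * h x = h x * (A x)ᴴ
  psd : ∀ x ∈ T, (A x * h x).PosSemidef
  inv : InvH R fun x => A x * h x
  tr : ∀ x ∈ T, Matrix.trace (A x) = (s : ℂ)
  bB : ∀ C ⊆ T, IsCompact C → ∃ B : ℝ, ∀ j, ∀ x ∈ C, ∀ a c, ‖Bep (ε j) h (Q j) x a c‖ ≤ B
  conv : ∀ C ⊆ T, IsCompact C → ∀ a c, Tendsto (fun j => ∫ x in C, dn T κ H (Q j) x *
    ‖Bep (ε j) h (Q j) x a c - A x a c‖) atTop (𝓝 0)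
  crv : ∀ x ∈ T, (crvP h ((h x)⁻¹ * A x) ((h x)⁻¹ * A x) x).re = 0
  tor : ∀ x ∈ T, ∀ m i p, ∑ k, A x m k * (Gam h k x i p - Gam h i x k p) = 0
  chi : ∀ x ∈ T, (Matrix.trace (χ x * ((h x)⁻¹ * A x))).re = 0

/-- The sequences of metrics for backgrounds with `ε_j N_j → m`, and the limit `A` of `ε_j h Q_j⁻¹` (as `LimA`). -/
structure LimAT {n : ℕ} (r : ℕ) (T : Set (Cn n)) {G : Type u} [Group G]
    (R : G → Cn n → Cn n → Prop) (κ : Cn n → ℝ) (H h : Cn n → Matrix (Fin n) (Fin n) ℂ)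
    (m : ℝ) (P A : Cn n → Matrix (Fin n) (Fin n) ℂ) (ε N : ℕ → ℝ) (φ : ℕ → Cn n → ℝ)
    (H' Q : ℕ → Cn n → Matrix (Fin n) (Fin n) ℂ) : Prop where
  ket : KEt T R H
  her : HerT T R h
  mnn : 0 ≤ m
  proj : ∀ x ∈ T, P x * P x = P x
  herm : ∀ x ∈ T, P x * h x = h x * (P x)ᴴ
  tr : ∀ x ∈ T, Matrix.trace (P x) = r
  cP : ∀ i j, ContinuousOn (fun x => P x i j) T
  cA : ∀ i j, ContinuousOn (fun x => A x i j) T
  PA : ∀ x ∈ T, P x * A x = A x ∧ A x * P x = A x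
  pos : ∀ x ∈ T, (A x * h x).PosSemidef
  nd : ∃ α : ℝ, 0 < α ∧ ∀ x ∈ T, α ≤ (A x + (1 - P x)).det.re
  bd : ∃ S : ℝ, ∀ x ∈ T, (Matrix.trace (A x)).re ≤ S
  eps : ∀ j, 0 < ε j
  lim : Tendsto ε atTop (𝓝 0)
  limN : Tendsto (fun j => ε j * N j) atTop (𝓝 m)
  fam : ∀ j, Fam T R H (N j) (φ j) (H' j)
  tke : ∀ j, TKE T R (H' j) (ε j) (Q j)
  bB : ∀ C ⊆ T, IsCompact C → ∃ B : ℝ, ∀ j, ∀ x ∈ C, ∀ a c, ‖Bep (ε j) h (Q j) x a c‖ ≤ B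
  conv : ∀ C ⊆ T, IsCompact C → ∀ a c, Tendsto (fun j => ∫ x in C, dn T κ H (Q j) x *
    ‖Bep (ε j) h (Q j) x a c - A x a c‖) atTop (𝓝 0)

end Pool.Agent.Helper27.TRB
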