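import Pool.Agent.Helper27.TRB.Goals2
import Pool.Agent.Helper46.GS.GLG

/-! # TRB: the differential inequality for the logarithm of the trace (TGLG) -/

open Complex Metric Set Filter Topology MeasureTheory
open scoped ContDiff ComplexConjugate ComplexOrder Manifold Matrix

namespace Pool.Agent.Helper27.TRB

open Pool.Agent.Helper95.Lin Pool.Agent.Helper10.SP Pool.Agent.Helper57.HS
  Pool.Agent.Helper15.HS Pool.Agent.Helper15.GS Pool.Agent.Helper57.RBC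
open Pool.Agent.Helper46.GS (trace_mul_im trace_mul_nonneg trace_mul_pos)

universe u

theorem tglg (hMCAL : S_MCAL) (hCL : S_CL) (hCLG : S_CLG) (hCHN : Pool.Agent.Helper95.HS.S_CHN)
    (hAAPS : Pool.Agent.Helper95.HS.S_AAPS) (hTRI : Pool.Agent.Helper95.HS.S_TRI.{u}) :
    S_TGLG.{u} := by
  intro n hn T G _ R h χ Q η hh hTRB hQ hη hrho
  have hT := hQ.et.isOpen
  have hInv := (hTRI T R Q hQ).1 h hh.smooth hh.inv
  refine ⟨hInv, fun x hx => ?_⟩
  have hCHF : CHF Q T := ⟨hQ.smooth, fun x hx => (hQ.posDef x hx).isHermitian, hQ.closed⟩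
  have hpos : ∀ y ∈ T, 0 < (Matrix.trace (h y * (Q y)⁻¹)).re := fun y hy =>
    trace_mul_pos hn (hh.posDef y hy) (hQ.posDef y hy).inv
  have hreal : ∀ y ∈ T, (((Matrix.trace (h y * (Q y)⁻¹)).re : ℝ) : ℂ) =
      Matrix.trace (h y * (Q y)⁻¹) := fun y hy =>
    Complex.ext (by simp) (by
      rw [Complex.ofReal_im]
      exact (trace_mul_im (hh.posDef y hy).isHermitian (hQ.posDef y hy).inv.isHermitian).symm)
  refine ⟨hpos x hx, ?_⟩
  set S : Cn n → ℝ := fun y => (Matrix.trace (h y * (Q y)⁻¹)).re with hS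
  have hSx : 0 < S x := hpos x hx
  -- the Chern–Lu inequality
  obtain ⟨hAA, hCLx⟩ := hCL T hT Q h η hCHF hQ.posDef hrho hh.smooth hh.posDef x hx
  have hKK : KKt h Q x ≤ (Matrix.trace (χ x * (Q x)⁻¹ * h x * (Q x)⁻¹)).re :=
    hTRB x hx _ (hQ.posDef x hx).inv.posSemidef
  have hη1 : (Matrix.trace (χ x * (Q x)⁻¹ * h x * (Q x)⁻¹)).re ≤
      (Matrix.trace (η x * (Q x)⁻¹ * h x * (Q x)⁻¹)).re := by
    have h1 : (η x - χ x) * (Q x)⁻¹ * h x * (Q x)⁻¹ =
        (η x - χ x) * ((Q x)⁻¹ * h x * ((Q x)⁻¹)ᴴ) := by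
      rw [(hQ.posDef x hx).inv.isHermitian.eq]
      simp only [Matrix.mul_assoc]
    have h2 : 0 ≤ (Matrix.trace ((η x - χ x) * (Q x)⁻¹ * h x * (Q x)⁻¹)).re := by
      rw [h1]
      exact trace_mul_nonneg (hη x hx)
        ((hh.posDef x hx).posSemidef.mul_mul_conjTranspose_same _)
    rw [Matrix.sub_mul, Matrix.sub_mul, Matrix.sub_mul, Matrix.trace_sub, Complex.sub_re] at h2
    linarith
  have hL : - S x + AAt h Q x ≤ (trL Q S x).re := by
    have e : (trL Q S x).re = - (Matrix.trace (h x * (Q x)⁻¹)).re +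
      (Matrix.trace (η x * (Q x)⁻¹ * h x * (Q x)⁻¹)).re - KKt h Q x + AAt h Q x := hCLx
    rw [e]
    show - (Matrix.trace (h x * (Q x)⁻¹)).re + AAt h Q x ≤ _
    linarith
  -- the gradient
  have hdeth : ∀ y ∈ T, (h y).det ≠ 0 := fun y hy =>
    ((Matrix.isUnit_iff_isUnit_det _).1 (hh.posDef y hy).isUnit).ne_zero
  have hdetQ : ∀ y ∈ T, (Q y).det ≠ 0 := fun y hy =>
    ((Matrix.isUnit_iff_isUnit_det _).1 (hQ.posDef y hy).isUnit).ne_zero
  obtain ⟨m1, -, -, m4, -⟩ := hMCAL T hT h h hh.smooth hh.smooth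
  have hhi := (m4 hdeth).1
  have hQi := ((hMCAL T hT Q Q hQ.smooth hQ.smooth).2.2.2.1 hdetQ).1
  have hΓ : ∀ k i j, ContDiffOn ℝ ∞ (fun x => Gam h k x i j) T := fun k =>
    (hMCAL T hT (cdM k h) (fun y => (h y)⁻¹) (fun i j => (m1 k i j).1) hhi).2.1
  have hΓh : ∀ x ∈ T, ∀ k, cdM k h x = Gam h k x * h x := by
    intro y hy k
    unfold Gam
    rw [Matrix.mul_assoc, Matrix.nonsing_inv_mul _ (isUnit_iff_ne_zero.2 (hdeth y hy)),
      Matrix.mul_one]
  obtain ⟨g1, -, hSs, -⟩ := hCLG T hT Q h η (fun k => Gam h k) hCHF hQ.posDef hrho hh.smooth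
    (fun y hy => (hh.posDef y hy).isHermitian) hΓ hΓh x hx
  have hhQ : ∀ i j, ContDiffOn ℝ ∞ (fun y => (h y * (Q y)⁻¹) i j) T :=
    (hMCAL T hT h (fun y => (Q y)⁻¹) hh.smooth hQi).2.1
  have hgrad : ∀ k, cd k (fun y => ((S y : ℝ) : ℂ)) x =
      - Matrix.trace (Adf h Q k x * h x * (Q x)⁻¹) := by
    intro k
    have e1 : (fun y => ((S y : ℝ) : ℂ)) =ᶠ[𝓝 x] fun y => ∑ i, (h y * (Q y)⁻¹) i i := by
      filter_upwards [hT.mem_nhds hx] with y hy
      exact hreal y hy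
    have e2 : cd k (fun y => ((S y : ℝ) : ℂ)) x =
        Matrix.trace (cdM k (fun y => h y * (Q y)⁻¹) x) := by
      rw [Pool.Agent.Helper93.SP.cd_congr k e1, Pool.Agent.Helper93.SP.cd_sum _ _ (fun i _ =>
        ((hhQ i i).differentiableOn (by simp)).differentiableAt (hT.mem_nhds hx))]
      rfl
    rw [e2, g1 k, Matrix.trace_sub, Matrix.trace_mul_comm (h x * (Q x)⁻¹)]
    unfold Adf
    rw [Matrix.mul_assoc, Matrix.sub_mul, Matrix.trace_sub]
    ring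
  -- the chain rule
  have hJ : MapsTo S T (Ioi 0) := fun y hy => hpos y hy
  obtain ⟨-, hch⟩ := hCHN T hT S Real.log (Ioi 0) hInv.1 isOpen_Ioi
    (Real.contDiffOn_log.mono fun y hy => (ne_of_gt hy : y ≠ 0)) hJ
  obtain ⟨-, hch2⟩ := hch x hx
  have hd1 : deriv Real.log (S x) = (S x)⁻¹ := Real.deriv_log _
  have hd2 : deriv (deriv Real.log) (S x) = - ((S x) ^ 2)⁻¹ := by
    rw [Real.deriv_log']
    exact (hasDerivAt_inv hSx.ne').deriv
  have hlog : trL Q (fun y => Real.log (S y)) x = (((S x)⁻¹ : ℝ) : ℂ) * trL Q S x -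
      ((((S x) ^ 2)⁻¹ : ℝ) : ℂ) * ∑ k, ∑ l, (Q x)⁻¹ l k *
        (Matrix.trace (Adf h Q k x * h x * (Q x)⁻¹) *
          conj (Matrix.trace (Adf h Q l x * h x * (Q x)⁻¹))) := by
    have e1 : ∀ u : Cn n → ℝ, trL Q u x = ∑ k, ∑ l, (Q x)⁻¹ l k * LM u x k l := by
      intro u
      unfold trL
      rw [Finset.sum_comm]
      simp only [Matrix.trace, Matrix.diag, Matrix.mul_apply]
    rw [e1, e1, Finset.mul_sum, Finset.mul_sum, ← Finset.sum_sub_distrib]
    refine Finset.sum_congr rfl fun k _ => ?_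
    rw [Finset.mul_sum, Finset.mul_sum, ← Finset.sum_sub_distrib]
    refine Finset.sum_congr rfl fun l _ => ?_
    rw [hch2 k l, hgrad k, hgrad l, hd1, hd2, map_neg]
    push_cast
    ring
  have hAP := (hAAPS (Q x) (h x) (fun k => Adf h Q k x) (hQ.posDef x hx)
    (hh.posDef x hx).posSemidef).2.2
  have hAP' : (∑ k, ∑ l, (Q x)⁻¹ l k *
        (Matrix.trace (Adf h Q k x * h x * (Q x)⁻¹) *
          conj (Matrix.trace (Adf h Q l x * h x * (Q x)⁻¹)))).re ≤ S x * AAt h Q x := hAP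
  have hfin : (trL Q (fun y => Real.log (S y)) x).re = (S x)⁻¹ * (trL Q S x).re -
      ((S x) ^ 2)⁻¹ * (∑ k, ∑ l, (Q x)⁻¹ l k *
        (Matrix.trace (Adf h Q k x * h x * (Q x)⁻¹) *
          conj (Matrix.trace (Adf h Q l x * h x * (Q x)⁻¹)))).re := by
    rw [hlog, Complex.sub_re, Complex.re_ofReal_mul, Complex.re_ofReal_mul]
  rw [hfin]
  have b1 : (S x)⁻¹ * (- S x + AAt h Q x) ≤ (S x)⁻¹ * (trL Q S x).re :=
    mul_le_mul_of_nonneg_left hL (by positivity)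
  have b2 := mul_le_mul_of_nonneg_left hAP' (show 0 ≤ ((S x) ^ 2)⁻¹ by positivity)
  have b3 : (S x)⁻¹ * (- S x + AAt h Q x) - ((S x) ^ 2)⁻¹ * (S x * AAt h Q x) = -1 := by
    field_simp
    ring
  linarith

end Pool.Agent.Helper27.TRB
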