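import Pool.Agent.Helper27.TRB.Defs
import Pool.Agent.Helper10.RBC.Goals
import Pool.Agent.Helper25.HS.NULB

/-!
# TRB: goals
-/

open Complex Metric Set Filter Topology MeasureTheory
open scoped ContDiff ComplexConjugate ComplexOrder Manifold Matrix

namespace Pool.Agent.Helper27.TRB

open Pool.Agent.Helper95.Lin Pool.Agent.Helper16.Abund Pool.Agent.Helper92.Orb
  Pool.Agent.Helper10.SP Pool.Agent.Helper95.RK Pool.Agent.Helper57.HS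
  Pool.Agent.Helper15.HS Pool.Agent.Helper15.GS Pool.Agent.Helper57.RBC
open Pool.Agent.Helper10.RBC (dn)
open Pool.Agent.Helper95.HS (vol)

universe u v

/-! ## Packets -/

/-- TAVL. Averages of continuous functions of `B_j` (copy of `ravl`, `Helper40/RBC/RAVL.lean`; `RDat` is used there only through
`ket`, `her`; `limN` is not used). -/
def S_TAVL : Prop := ∀ {n : ℕ} (T : Set (Cn n)) {G : Type u} [Group G]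
  (R : G → Cn n → Cn n → Prop) (H h : Cn n → Matrix (Fin n) (Fin n) ℂ),
  ∀ κ, IsPUE T R κ → ∀ (r : ℕ) (m : ℝ) (P A : Cn n → Matrix (Fin n) (Fin n) ℂ) (ε N : ℕ → ℝ)
  (φ : ℕ → Cn n → ℝ) (H' Q : ℕ → Cn n → Matrix (Fin n) (Fin n) ℂ),
  LimAT r T R κ H h m P A ε N φ H' Q →
  ∀ F : Cn n → Matrix (Fin n) (Fin n) ℂ → ℝ,
  ContinuousOn (fun q : Cn n × Matrix (Fin n) (Fin n) ℂ => F q.1 q.2) (T ×ˢ univ) →
  ∀ a b : ℝ, (∀ x ∈ T, a ≤ F x (A x) ∧ F x (A x) ≤ b) → ∀ η : ℝ, 0 < η → ∀ᶠ j in atTop,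
    a - η ≤ avE T κ (Q j) (fun x => F x (Bep (ε j) h (Q j) x)) ∧
    avE T κ (Q j) (fun x => F x (Bep (ε j) h (Q j) x)) ≤ b + η

/-- TNK. The numerical dimension is at least `n - r` (copy of `rnk`, `Helper10/RBC/Rnk.lean`, with `ε_j N_j → m ≥ 0` in place of
`ε_j N_j → 0`; `s_j = ε_j/(1 + ε_j N_j) → 0` all the same). USES: CMPG, `Helper10.RBC.S_RLV`, TAVL, `Helper10.RBC.S_RDL`, TRC, NULL0. -/
def S_TNK : Prop := ∀ {n : ℕ} (T : Set (Cn n)) {G : Type u} [Group G]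
  (R : G → Cn n → Cn n → Prop) (H h : Cn n → Matrix (Fin n) (Fin n) ℂ),
  ∀ κ, IsPUE T R κ → ∀ (k : ℕ) (p : Polynomial ℝ), 0 < p.eval 0 →
  (∀ s : ℝ, VolP T κ H s = s ^ k * p.eval s) →
  ∀ (r : ℕ) (m : ℝ) (P A : Cn n → Matrix (Fin n) (Fin n) ℂ) (ε N : ℕ → ℝ)
  (φ : ℕ → Cn n → ℝ) (H' Q : ℕ → Cn n → Matrix (Fin n) (Fin n) ℂ),
  LimAT r T R κ H h m P A ε N φ H' Q → k ≤ r

/-- TCLO. The form `P h` is closed (copy of `rclo`, `Helper15/RBC/RCLO.lean`; `RDat` is used there only through `ket`, `her`). -/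
def S_TCLO : Prop := ∀ {n : ℕ} (T : Set (Cn n)) {G : Type u} [Group G]
  (R : G → Cn n → Cn n → Prop) (H h : Cn n → Matrix (Fin n) (Fin n) ℂ), KEt T R H →
  HerT T R h →
  ∀ P : Cn n → Matrix (Fin n) (Fin n) ℂ, (∀ i j, DifferentiableOn ℂ (fun x => P x i j) T) →
  (∀ x ∈ T, P x * P x = P x) → (∀ x ∈ T, P x * h x = h x * (P x)ᴴ) →
  (InvH R fun x => P x * h x) → (∀ x ∈ T, ∀ i j l m, ∑ p, P x i p * crv h x p j l m = 0) →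
  CHF (fun x => P x * h x) T

/-- TNUL. The limit direction is in the nullity (copy of `nulr`, `Helper15/RBC/NULR.lean`): `RBC h W` is used there only in `hrank`, for
vectors `w = v ᵥ* P x`; here it is replaced by the hypothesis on such vectors. -/
def S_TNUL : Prop := ∀ {n : ℕ} (W : Set (Cn n)), IsOpen W →
  ∀ h P A : Cn n → Matrix (Fin n) (Fin n) ℂ, (∀ x ∈ W, (h x).PosDef) →
  (∀ i j, ContDiffOn ℝ ∞ (fun x => h x i j) W) →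
  (∀ x ∈ W, ∀ w : Fin n → ℂ, w ᵥ* P x = w →
    (Pool.Agent.Helper25.HS.TT (crv h x) w w w w).re ≤ 0) →
  (∀ i j, DifferentiableOn ℂ (fun x => P x i j) W) → (∀ x ∈ W, P x * P x = P x) →
  (∀ x ∈ W, P x * h x = h x * (P x)ᴴ) →
  (∀ x ∈ W, ∀ m i p, ∑ k, P x m k * (Gam h k x i p - Gam h i x k p) = 0) →
  (∀ x ∈ W, A x * P x = A x) → (∀ x ∈ W, A x * h x = h x * (A x)ᴴ) →
  (∀ x ∈ W, ∃ c : ℝ, 0 < c ∧ (A x * h x - (c : ℂ) • (P x * h x)).PosSemidef) →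
  (∀ x ∈ W, (crvP h ((h x)⁻¹ * A x) ((h x)⁻¹ * A x) x).re = 0) → ∀ x ∈ W,
  (∀ i j l m, ∑ p, P x i p * crv h x p j l m = 0) ∧
  (∀ i j l m, ∑ p, P x l p * crv h x i j p m = 0) ∧ P x * rho h x = 0

/-! ## The chain (helper27) -/

/-- TFAM. The twisted background is in the family. -/
def S_TFAM : Prop := ∀ {n : ℕ} (T : Set (Cn n)) {G : Type u} [Group G]
  (R : G → Cn n → Cn n → Prop) (H h χ : Cn n → Matrix (Fin n) (Fin n) ℂ) (μ : ℝ) (ψ : Cn n → ℝ),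
  TDat T R H h χ μ ψ → ∀ (N : ℝ) (φ : Cn n → ℝ) (H' : Cn n → Matrix (Fin n) (Fin n) ℂ),
  Fam T R H N φ H' → ∀ ε : ℝ, 0 < ε →
  Fam T R H (N + ε⁻¹ * μ) (fun x => φ x + ε⁻¹ * ψ x) (tw χ ε H')

/-- TEX. Existence of the twisted metrics. -/
def S_TEX : Prop := ∀ {n : ℕ} (T : Set (Cn n)) {G : Type u} [Group G]
  (R : G → Cn n → Cn n → Prop) (H h χ : Cn n → Matrix (Fin n) (Fin n) ℂ) (μ : ℝ) (ψ : Cn n → ℝ),
  TDat T R H h χ μ ψ → ∀ H' : Cn n → Matrix (Fin n) (Fin n) ℂ, KEt T R H' →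
  ∀ ε : ℝ, 0 < ε → ∃ Q, TKE T R (tw χ ε H') ε Q

/-- TMON. The sharp bound. -/
def S_TMON : Prop := ∀ {n : ℕ} (T : Set (Cn n)) {G : Type u} [Group G]
  (R : G → Cn n → Cn n → Prop) (H' h χ : Cn n → Matrix (Fin n) (Fin n) ℂ), KEt T R H' →
  HerT T R h → TRBC h χ T → ∀ s : ℝ, SupB T h H' s →
  ∀ (ε : ℝ) (Q : Cn n → Matrix (Fin n) (Fin n) ℂ), 0 < ε →
  TKE T R (tw χ ε H') ε Q → ∀ x ∈ T, ε * (Matrix.trace (h x * (Q x)⁻¹)).re ≤ s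

/-- TSEQ. The minimising sequences. -/
def S_TSEQ : Prop := ∀ {n : ℕ} (T : Set (Cn n)) {G : Type u} [Group G]
  (R : G → Cn n → Cn n → Prop) (H h χ : Cn n → Matrix (Fin n) (Fin n) ℂ) (μ : ℝ) (ψ : Cn n → ℝ),
  TDat T R H h χ μ ψ →
  ∃ (s : ℝ) (S N : ℕ → ℝ) (φ : ℕ → Cn n → ℝ) (H' : ℕ → Cn n → Matrix (Fin n) (Fin n) ℂ)
    (ε : ℕ → ℝ) (Q : ℕ → Cn n → Matrix (Fin n) (Fin n) ℂ), SeqT T R H h χ s S N φ H' ε Q

/-- TVD. The function `v = S - ε tr (h Q⁻¹)` (as `RVD`). -/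
def S_TVD : Prop := ∀ {n : ℕ} (T : Set (Cn n)) {G : Type u} [Group G]
  (R : G → Cn n → Cn n → Prop) (H' h χ : Cn n → Matrix (Fin n) (Fin n) ℂ), KEt T R H' →
  HerT T R h → (∀ x ∈ T, (χ x).PosSemidef) → (∀ i j, ContinuousOn (fun x => χ x i j) T) →
  TRBC h χ T →
  ∀ κ, IsPUE T R κ → ∀ (S ε : ℝ) (Q : Cn n → Matrix (Fin n) (Fin n) ℂ), 0 < ε →
  SupB T h H' S → TKE T R (tw χ ε H') ε Q →
  InvF T R (fun x => S - ε * (Matrix.trace (h x * (Q x)⁻¹)).re) ∧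
  (∀ x ∈ T, 0 ≤ S - ε * (Matrix.trace (h x * (Q x)⁻¹)).re) ∧
  (∀ x ∈ T, (trL Q (fun y => S - ε * (Matrix.trace (h y * (Q y)⁻¹)).re) x).re ≤
    S - ε * (Matrix.trace (h x * (Q x)⁻¹)).re) ∧
  (∀ x ∈ T, 0 ≤ ε * AAt h Q x ∧ 0 ≤ ε *
    ((Matrix.trace (χ x * (Q x)⁻¹ * h x * (Q x)⁻¹)).re - KKt h Q x)) ∧
  avE T κ Q (fun x => ε * AAt h Q x) ≤
    avE T κ Q (fun x => S - ε * (Matrix.trace (h x * (Q x)⁻¹)).re) ∧
  avE T κ Q (fun x => ε * ((Matrix.trace (χ x * (Q x)⁻¹ * h x * (Q x)⁻¹)).re - KKt h Q x)) ≤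
    avE T κ Q (fun x => S - ε * (Matrix.trace (h x * (Q x)⁻¹)).re)

/-- TVC. `E_j[v_j] → 0`. -/
def S_TVC : Prop := ∀ {n : ℕ}, 0 < n → ∀ (T : Set (Cn n)) {G : Type u} [Group G]
  (R : G → Cn n → Cn n → Prop) (H h χ : Cn n → Matrix (Fin n) (Fin n) ℂ) (μ : ℝ) (ψ : Cn n → ℝ),
  TDat T R H h χ μ ψ →
  ∀ κ, IsPUE T R κ → ∀ (s : ℝ) (S N : ℕ → ℝ) (φ : ℕ → Cn n → ℝ)
    (H' : ℕ → Cn n → Matrix (Fin n) (Fin n) ℂ) (ε : ℕ → ℝ)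
    (Q : ℕ → Cn n → Matrix (Fin n) (Fin n) ℂ), SeqT T R H h χ s S N φ H' ε Q →
  Tendsto (fun j => avE T κ (Q j) fun x =>
    S j - ε j * (Matrix.trace (h x * (Q j x)⁻¹)).re) atTop (𝓝 0)

/-- TCH. The average of `tr (χ Q⁻¹)` is at most `n`. -/
def S_TCH : Prop := ∀ {n : ℕ} (T : Set (Cn n)) {G : Type u} [Group G]
  (R : G → Cn n → Cn n → Prop) (H h χ : Cn n → Matrix (Fin n) (Fin n) ℂ) (μ : ℝ) (ψ : Cn n → ℝ),
  TDat T R H h χ μ ψ → ∀ κ, IsPUE T R κ → ∀ (ε : ℝ)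
    (H' Q : Cn n → Matrix (Fin n) (Fin n) ℂ), 0 < ε → KEt T R H' → TKE T R (tw χ ε H') ε Q →
  InvF T R (fun x => (Matrix.trace (χ x * (Q x)⁻¹)).re) ∧
  (∀ x ∈ T, 0 ≤ (Matrix.trace (χ x * (Q x)⁻¹)).re) ∧
  avE T κ Q (fun x => (Matrix.trace (χ x * (Q x)⁻¹)).re) ≤ n

/-- TLC. The weighted limit exists. -/
def S_TLC : Prop := ∀ {n : ℕ}, 0 < n → ∀ (T : Set (Cn n)) {G : Type u} [Group G]
  (R : G → Cn n → Cn n → Prop) (H h χ : Cn n → Matrix (Fin n) (Fin n) ℂ) (μ : ℝ) (ψ : Cn n → ℝ),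
  TDat T R H h χ μ ψ → ∀ κ, IsPUE T R κ →
  ∃ (s : ℝ) (S N : ℕ → ℝ) (φ : ℕ → Cn n → ℝ) (H' : ℕ → Cn n → Matrix (Fin n) (Fin n) ℂ)
    (ε : ℕ → ℝ) (Q : ℕ → Cn n → Matrix (Fin n) (Fin n) ℂ)
    (A : Cn n → Matrix (Fin n) (Fin n) ℂ), LimTC T R κ H h χ A s S N φ H' ε Q

/-- TLP. Pointwise properties of the limit. -/
def S_TLP : Prop := ∀ {n : ℕ} (T : Set (Cn n)) {G : Type u} [Group G]
  (R : G → Cn n → Cn n → Prop) (H h χ : Cn n → Matrix (Fin n) (Fin n) ℂ) (μ : ℝ) (ψ : Cn n → ℝ),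
  TDat T R H h χ μ ψ → ∀ κ, IsPUE T R κ →
  ∀ (A : Cn n → Matrix (Fin n) (Fin n) ℂ) (s : ℝ) (S N : ℕ → ℝ) (φ : ℕ → Cn n → ℝ)
    (H' : ℕ → Cn n → Matrix (Fin n) (Fin n) ℂ) (ε : ℕ → ℝ)
    (Q : ℕ → Cn n → Matrix (Fin n) (Fin n) ℂ), LimTC T R κ H h χ A s S N φ H' ε Q →
  LimTB T R κ H h χ A s S N φ H' ε Q

end Pool.Agent.Helper27.TRB
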